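import Pool.Agent.W981.Sym.Four

/-!
# Families of sums of matrices `u vᵀ + v uᵀ`
-/

set_option autoImplicit false
set_option linter.unusedSectionVars false

namespace Pool.Agent.W981.Sym

open Pool.Agent.W981.Hyp Pool.Agent.W981.Blk Pool.Agent.W981.Aff Module Matrix MvPolynomial

variable {K : Type*} [Field K] {n : Type*} [Fintype n]

theorem near_of_sums {σ : Type*} [Fintype σ] (A : σ → Matrix n n K) (c : ℕ) (e : σ → ℕ)
    (u v : (k : σ) → Fin (e k) → n → K)
    (hA : ∀ k, A k = ∑ i, (vecMulVec (u k i) (v k i) + vecMulVec (v k i) (u k i)))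
    (h : ∑ k, (e k - 1) ≤ c) : ∃ R : Set (Matrix n n K),
      (∀ T ∈ R, ∃ u v, T = vecMulVec u v + vecMulVec v u) ∧
      (∀ k, A k ∈ Submodule.span K R) ∧
      finrank K (Submodule.span K R) ≤ finrank K (Submodule.span K (Set.range A)) + c := by
  classical
  obtain ⟨f, hfA, hfs, hli⟩ := Submodule.exists_fun_fin_finrank_span_eq K (Set.range A)
  choose κ hκ using hfA
  have hκi : Function.Injective κ := by
    intro i j hij
    refine hli.injective ?_
    rw [← hκ i, ← hκ j, hij]
  set R : Set (Matrix n n K) := Set.range fun p : (Σ i, Fin (e (κ i))) =>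
    vecMulVec (u (κ p.1) p.2) (v (κ p.1) p.2) + vecMulVec (v (κ p.1) p.2) (u (κ p.1) p.2) with hR
  refine ⟨R, ?_, fun k => ?_, ?_⟩
  · rintro _ ⟨p, rfl⟩
    exact ⟨_, _, rfl⟩
  · have h1 : A k ∈ Submodule.span K (Set.range f) := by
      rw [hfs]
      exact Submodule.subset_span ⟨k, rfl⟩
    refine (Submodule.span_le.2 ?_) h1
    rintro _ ⟨i, rfl⟩
    rw [SetLike.mem_coe, ← hκ i, hA (κ i)]
    exact Submodule.sum_mem _ fun j _ => Submodule.subset_span ⟨⟨i, j⟩, rfl⟩
  · have h1 : finrank K (Submodule.span K R) ≤ Fintype.card (Σ i, Fin (e (κ i))) :=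
      finrank_range_le_card _
    have h2 : Fintype.card (Σ i, Fin (e (κ i))) = ∑ i, e (κ i) := by simp
    have h3 : ∑ i, e (κ i) = ∑ i : Fin (finrank K (Submodule.span K (Set.range A))),
        (1 + (e (κ i) - 1)) := by
      refine Finset.sum_congr rfl fun i _ => ?_
      have h4 : e (κ i) ≠ 0 := by
        intro h0
        refine hli.ne_zero i ?_
        have h7 : IsEmpty (Fin (e (κ i))) := by
          rw [h0]
          exact Fin.isEmpty
        rw [← hκ i, hA (κ i), Finset.univ_eq_empty, Finset.sum_empty]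
      omega
    have h5 : ∑ i, (e (κ i) - 1) ≤ ∑ k, (e k - 1) := by
      calc ∑ i, (e (κ i) - 1) = ∑ k ∈ Finset.univ.image κ, (e k - 1) := by
            rw [Finset.sum_image fun i _ j _ hij => hκi hij]
        _ ≤ _ := Finset.sum_le_sum_of_subset (Finset.subset_univ _)
    rw [h2, h3, Finset.sum_add_distrib, Finset.sum_const, Finset.card_univ, Fintype.card_fin,
      smul_eq_mul, mul_one] at h1
    omega

end Pool.Agent.W981.Sym
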