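import Pool.Agent.W981.Aff.Alg2

/-!
# Two statements used for families of symmetric matrices
-/

set_option autoImplicit false
set_option linter.unusedSectionVars false

namespace Pool.Agent.W981.Sym

open Pool.Agent.W981.Hyp Pool.Agent.W981.Blk Pool.Agent.W981.Aff Module Matrix

universe u v w x

/-- A cubic form on `P` which is diagonal up to a small codimension has small rank. -/
def S_CUB : Prop := ∀ (F : Type u) (ι : Type v) (P : Type w) [Field F] [Fintype ι]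
  [AddCommGroup P] [Module F P] [FiniteDimensional F P] (η : ι → F) (κ s : P →ₗ[F] (ι → F))
  (k : ℕ), (3 : F) ≠ 0 → (∀ i, η i = 0 → ∀ b, s b i = 0) →
  (∀ a b c, κ a ⬝ᵥ (η * (s b * s c)) + κ b ⬝ᵥ (η * (s a * s c)) +
    κ c ⬝ᵥ (η * (s a * s b)) = 0) →
  Fintype.card ι ≤ finrank F (LinearMap.range κ) + k →
  finrank F (LinearMap.range s) ≤ 10 * k

/-- The argument with the finitely many sets `J`. -/
def S_JARG : Prop := ∀ (K : Type u) (F : Type v) (n : Type w) (ι : Type x) (ω : Type x)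
  [Field K] [Field F] [Algebra K F] [Infinite F] [Fintype n] [Fintype ι] [Finite ω]
  (Z : Submodule F (n → F)) (p q : ι → n → K) (H0 : Submodule K (n → K)) (τ : ℕ)
  (ψ : ω → Dual F (n → F)), (∀ j, ∃ z ∈ Z, ψ j z ≠ 0) →
  (∀ z ∈ Z, (∀ j, ψ j z ≠ 0) → finrank F (ext F H0 ⊔ Submodule.span F (Set.range fun i =>
    (up F (q i) ⬝ᵥ z) • up F (p i) + (up F (p i) ⬝ᵥ z) • up F (q i)) :
      Submodule F (n → F)) ≤ finrank K H0 + τ) →
  ∃ H1 : Submodule K (n → K), H0 ≤ H1 ∧ finrank K H1 ≤ finrank K H0 + 2 * τ ∧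
    ∀ i, ∀ x ∈ hull K Z, (q i ⬝ᵥ x) • p i + (p i ⬝ᵥ x) • q i ∈ H1

end Pool.Agent.W981.Sym
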