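import Pool.Agent.W981.Sym.Idn
import Pool.Agent.W981.Sym.Stm

/-!
# Affine families of symmetric matrices: the data, and the first part of the argument
-/

set_option autoImplicit false
set_option linter.unusedSectionVars false

namespace Pool.Agent.W981.Sym

open Pool.Agent.W981.Hyp Pool.Agent.W981.Blk Pool.Agent.W981.Aff Module Matrix MvPolynomial

section main

variable {σ ι K : Type*} [Field K] [DecidableEq σ] [Fintype σ] [Fintype ι]
  {n : Type*} [Fintype n]

/-- the functional vanishes on `X` -/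
def dead (q : ι → n → K) (X : Submodule K (n → K)) (i : ι) : Prop := ∀ x ∈ X, q i ⬝ᵥ x = 0

/-- The data of the argument for symmetric families. -/
structure DatS (B : Matrix n n K) (A : σ → Matrix n n K) (p q : ι → n → K)
    (a : σ → ι → K) (X : Submodule K (n → K)) : Prop where
  hB : Bᵀ = B
  hA : ∀ k, A k = ∑ i, a k i • (vecMulVec (p i) (q i) + vecMulVec (q i) (p i))
  hX : X = hull K (LinearMap.ker (gaf B A).mulVecLin)
  hpq : ∀ i, dead p X i → dead q X i

/-- the covectors which are orthogonal to `L X` -/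
def IW (B : Matrix n n K) (A : σ → Matrix n n K) (X : Submodule K (n → K))
    (w : n → FF σ K) : Prop := ∀ y ∈ ext (FF σ K) X, w ⬝ᵥ (gaf B A *ᵥ y) = 0

/-- the good vectors of the kernel -/
structure GZ (B : Matrix n n K) (A : σ → Matrix n n K) (p q : ι → n → K)
    (X : Submodule K (n → K)) (z : n → FF σ K) : Prop where
  h0 : gaf B A *ᵥ z = 0
  hp : ∀ i, zt p z i = 0 → dead p X i
  hq : ∀ i, zt q z i = 0 → dead q X i

/-- the good covectors -/
structure GW (B : Matrix n n K) (A : σ → Matrix n n K) (q : ι → n → K)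
    (X : Submodule K (n → K)) (w : n → FF σ K) : Prop where
  h0 : IW B A X w
  hq : ∀ i, zt q w i = 0 → up (FF σ K) (q i) ∈ (ext (FF σ K) X).map (gaf B A).mulVecLin

/-- the symmetric pairing -/
noncomputable def enl (p q : ι → n → K) (w : n → FF σ K) : (n → FF σ K) →ₗ[FF σ K] (ι → FF σ K) where
  toFun x := fun i => zt p w i * zt q x i + zt q w i * zt p x i
  map_add' x y := by
    funext i
    simp only [zt, dotProduct_add, Pi.add_apply]
    ring
  map_smul' c x := by
    funext i
    simp only [zt, dotProduct_smul, smul_eq_mul, Pi.smul_apply, RingHom.id_apply]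
    ring

theorem enl_apply (p q : ι → n → K) (w x : n → FF σ K) (i : ι) :
    enl p q w x i = zt p w i * zt q x i + zt q w i * zt p x i := rfl

theorem enl_symm (p q : ι → n → K) (w x : n → FF σ K) : enl p q w x = enl p q x w := by
  funext i
  rw [enl_apply, enl_apply]
  ring

/-- the map `R_z` -/
noncomputable def RRz (p q : ι → n → K) (z : n → FF σ K) :
    (ι → FF σ K) →ₗ[FF σ K] (n → FF σ K) := BBl p q z + BBl q p z

theorem RRz_apply (p q : ι → n → K) (z : n → FF σ K) (y : ι → FF σ K) :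
    RRz p q z y = BB p q y z + BB q p y z := rfl

theorem RRz_single [DecidableEq ι] (p q : ι → n → K) (z : n → FF σ K) (i : ι) :
    RRz p q z (Pi.single i 1) = (up (FF σ K) (q i) ⬝ᵥ z) • up (FF σ K) (p i) +
      (up (FF σ K) (p i) ⬝ᵥ z) • up (FF σ K) (q i) := by
  have e : ∀ u v : ι → n → K, BB u v (Pi.single i 1 : ι → FF σ K) z =
      (up (FF σ K) (v i) ⬝ᵥ z) • up (FF σ K) (u i) := by
    intro u v
    rw [BB, Finset.sum_eq_single i]
    · rw [Pi.single_eq_same, one_mul]
    · intro j _ hj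
      rw [Pi.single_eq_of_ne hj, zero_mul, zero_smul]
    · intro h
      exact absurd (Finset.mem_univ _) h
  rw [RRz_apply, e, e]

theorem range_RRz (p q : ι → n → K) (z : n → FF σ K) : LinearMap.range (RRz p q z) =
    Submodule.span (FF σ K) (Set.range fun i => (up (FF σ K) (q i) ⬝ᵥ z) • up (FF σ K) (p i) +
      (up (FF σ K) (p i) ⬝ᵥ z) • up (FF σ K) (q i)) := by
  classical
  have h1 : (⊤ : Submodule (FF σ K) (ι → FF σ K)) = Submodule.span (FF σ K)
      (Set.range fun i => (Pi.single i (1 : FF σ K) : ι → FF σ K)) := by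
    have := (Pi.basisFun (FF σ K) ι).span_eq
    rw [← this]
    congr 1
  rw [← Submodule.map_top, h1, Submodule.map_span, ← Set.range_comp]
  congr 1
  ext x
  simp only [Set.mem_range, Function.comp_apply, RRz_single]

theorem perp_small {a : σ → ι → K} {c : ℕ} (hc : Fintype.card ι ≤ finrank K (WW a) + c)
    (S : Submodule (FF σ K) (ι → FF σ K)) (h : ∀ x ∈ S, ∀ b, kap a b ⬝ᵥ x = 0) :
    finrank (FF σ K) S ≤ c := by
  classical
  have h3 : finrank (FF σ K) (LinearMap.range (kap (σ := σ) a)) + finrank (FF σ K) S ≤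
      Fintype.card ι := by
    refine finrank_perp_le _ _ ?_
    rintro _ ⟨b, rfl⟩ x hx
    exact h x hx b
  have h5 := Submodule.finrank_mono (ext_le_range (σ := σ) a)
  rw [finrank_ext] at h5
  omega

namespace DatS

variable {B : Matrix n n K} {A : σ → Matrix n n K} {p q : ι → n → K}
    {a : σ → ι → K} {X : Submodule K (n → K)}

theorem ker_le (h : DatS B A p q a X) :
    LinearMap.ker (gaf B A).mulVecLin ≤ ext (FF σ K) X := by
  rw [h.hX]
  exact le_ext_hull _

theorem hz (h : DatS B A p q a X) {z : n → FF σ K} (hz : gaf B A *ᵥ z = 0) :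
    z ∈ ext (FF σ K) X := h.ker_le hz

theorem sA (h : DatS B A p q a X) (k : σ) : (A k)ᵀ = A k := by
  rw [h.hA k, Matrix.transpose_sum]
  refine Finset.sum_congr rfl fun i _ => ?_
  rw [transpose_smul, transpose_add, transpose_vecMulVec, transpose_vecMulVec, add_comm]

theorem sL (h : DatS B A p q a X) : (gaf B A)ᵀ = gaf B A := by
  classical
  have e1 : (B.map (algebraMap K (FF σ K)))ᵀ = B.map (algebraMap K (FF σ K)) := by
    rw [← transpose_map, h.hB]
  have e2 : (fun k => (A k)ᵀ) = A := funext fun k => h.sA k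
  rw [gaf, transpose_add, e1, ← gen_transpose, e2]

theorem iw (h : DatS B A p q a X) {z : n → FF σ K} (hz : gaf B A *ᵥ z = 0) : IW B A X z := by
  intro y _
  rw [dotProduct_mulVec, ← mulVec_transpose, h.sL, hz, zero_dotProduct]

theorem map_A (h : DatS B A p q a X) (k : σ) (x : n → FF σ K) :
    (A k).map (algebraMap K (FF σ K)) *ᵥ x =
      BB p q (up (FF σ K) (a k)) x + BB q p (up (FF σ K) (a k)) x := by
  have e : A k = (∑ i, a k i • vecMulVec (p i) (q i)) + ∑ i, a k i • vecMulVec (q i) (p i) := by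
    rw [h.hA k, ← Finset.sum_add_distrib]
    exact Finset.sum_congr rfl fun i _ => smul_add _ _ _
  have e2 : (A k).map (algebraMap K (FF σ K)) =
      (∑ i, a k i • vecMulVec (p i) (q i)).map (algebraMap K (FF σ K)) +
        (∑ i, a k i • vecMulVec (q i) (p i)).map (algebraMap K (FF σ K)) := by
    rw [e]
    ext i j
    simp only [Matrix.map_apply, Matrix.add_apply, map_add]
  rw [e2, add_mulVec, map_mulVec_eq p q rfl, map_mulVec_eq q p rfl]

theorem aa_eq (h : DatS B A p q a X) (b : σ → FF σ K) (x : n → FF σ K) :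
    aa A b x = RRz p q x (kap a b) := by
  rw [RRz_apply, aa, kap, Fintype.linearCombination_apply, BB_sum_left, BB_sum_left,
    ← Finset.sum_add_distrib]
  refine Finset.sum_congr rfl fun k _ => ?_
  rw [h.map_A, BB_smul_left, BB_smul_left, smul_add]

theorem dot_aa (h : DatS B A p q a X) (w : n → FF σ K) (b : σ → FF σ K) (x : n → FF σ K) :
    w ⬝ᵥ aa A b x = kap a b ⬝ᵥ enl p q w x := by
  rw [h.aa_eq, RRz_apply, dotProduct_add, dot_BB, dot_BB, ← dotProduct_add]
  congr 1
  funext i
  rw [Pi.add_apply, nu_apply, nu_apply, enl_apply]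
  simp only [om, zt, dotProduct_comm w]

theorem aa_symm (h : DatS B A p q a X) (w : n → FF σ K) (b : σ → FF σ K) (x : n → FF σ K) :
    w ⬝ᵥ aa A b x = x ⬝ᵥ aa A b w := by
  rw [h.dot_aa, h.dot_aa, enl_symm]

theorem zdot (h : DatS B A p q a X) (h2 : (2 : FF σ K) ≠ 0) {z : n → FF σ K}
    (hz : gaf B A *ᵥ z = 0) (b c : σ → FF σ K) : z ⬝ᵥ aa A c (zb z b) = 0 := by
  have e1 := g1 (h.iw hz) (h.hz hz) hz b c
  have e2 := g2 (h.iw hz) (h.hz hz) hz b c
  have e3 := h.aa_symm z b (zb z c)
  have e4 : 2 * (z ⬝ᵥ aa A c (zb z b)) = 0 := by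
    linear_combination e2 + e1 - e3
  exact (mul_eq_zero.1 e4).resolve_left h2

/-- the map `φ` -/
noncomputable def ph (p q : ι → n → K) (z : n → FF σ K) : (σ → FF σ K) →ₗ[FF σ K] (ι → FF σ K) :=
  enl p q z ∘ₗ zb z

theorem ph_apply (z : n → FF σ K) (b : σ → FF σ K) (i : ι) :
    ph p q z b i = zt p z i * zt q (zb z b) i + zt q z i * zt p (zb z b) i := rfl

theorem finrank_ph (h : DatS B A p q a X) (h2 : (2 : FF σ K) ≠ 0) {z : n → FF σ K}
    (hz : gaf B A *ᵥ z = 0) {c : ℕ} (hc : Fintype.card ι ≤ finrank K (WW a) + c) :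
    finrank (FF σ K) (σ → FF σ K) ≤ finrank (FF σ K) (LinearMap.ker (ph p q z)) + c := by
  have h1 := LinearMap.finrank_range_add_finrank_ker (ph p q z)
  have h3 := perp_small hc (LinearMap.range (ph p q z)) (by
    rintro _ ⟨b, rfl⟩ c
    change kap a c ⬝ᵥ enl p q z (zb z b) = 0
    rw [← h.dot_aa]
    exact h.zdot h2 hz b c)
  omega

/-- the weights -/
noncomputable def ets (p q : ι → n → K) (z : n → FF σ K) : ι → FF σ K :=
  fun i => zt p z i * zt q z i

/-- the map `s` -/
noncomputable def ss (p q : ι → n → K) (z : n → FF σ K) :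
    (σ → FF σ K) →ₗ[FF σ K] (ι → FF σ K) where
  toFun c := fun i => zt q z i * (zt p z i * zt q z i)⁻¹ * zt p (zb z c) i
  map_add' x y := by
    funext i
    simp only [zt, map_add, dotProduct_add, Pi.add_apply]
    ring
  map_smul' c x := by
    funext i
    simp only [zt, map_smul, dotProduct_smul, smul_eq_mul, Pi.smul_apply, RingHom.id_apply]
    ring

theorem ss_apply (z : n → FF σ K) (c : σ → FF σ K) (i : ι) : ss p q z c i =
    zt q z i * (zt p z i * zt q z i)⁻¹ * zt p (zb z c) i := rfl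

theorem zt_dead {X : Submodule K (n → K)} {v : ι → n → K} {i : ι} (h : dead v X i)
    {x : n → FF σ K} (hx : x ∈ ext (FF σ K) X) : zt v x i = 0 := dot_of_mem hx h

theorem en_eq (h : DatS B A p q a X) {z : n → FF σ K} (hz : GZ B A p q X z)
    {c d : σ → FF σ K} (hc : ph p q z c = 0) (hd : ph p q z d = 0) :
    enl p q (zb z c) (zb z d) = (-2 : FF σ K) • (ets p q z * (ss p q z c * ss p q z d)) := by
  funext i
  rw [Pi.smul_apply, Pi.mul_apply, Pi.mul_apply, ss_apply, ss_apply, enl_apply, smul_eq_mul]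
  change _ = -2 * (zt p z i * zt q z i * _)
  have hcz := zb_mem (h.hz hz.h0) c
  have hdz := zb_mem (h.hz hz.h0) d
  have hc' : zt p z i * zt q (zb z c) i + zt q z i * zt p (zb z c) i = 0 := congrFun hc i
  have hd' : zt p z i * zt q (zb z d) i + zt q z i * zt p (zb z d) i = 0 := congrFun hd i
  by_cases h1 : zt p z i = 0
  · rw [zt_dead (hz.hp i h1) hcz, zt_dead (hz.hp i h1) hdz]
    ring
  by_cases h2 : zt q z i = 0
  · rw [zt_dead (hz.hq i h2) hcz, zt_dead (hz.hq i h2) hdz, h2]
    ring
  have e1 : zt q (zb z c) i = -(zt q z i * zt p (zb z c) i) / zt p z i := by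
    field_simp
    linear_combination hc'
  have e2 : zt q (zb z d) i = -(zt q z i * zt p (zb z d) i) / zt p z i := by
    field_simp
    linear_combination hd'
  rw [e1, e2]
  field_simp
  ring

theorem cubic (h : DatS B A p q a X) (h2 : (2 : FF σ K) ≠ 0) {z : n → FF σ K}
    (hz : GZ B A p q X z) {b c d : σ → FF σ K} (hb : ph p q z b = 0) (hc : ph p q z c = 0)
    (hd : ph p q z d = 0) :
    kap a b ⬝ᵥ (ets p q z * (ss p q z c * ss p q z d)) +
      kap a c ⬝ᵥ (ets p q z * (ss p q z b * ss p q z d)) +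
      kap a d ⬝ᵥ (ets p q z * (ss p q z b * ss p q z c)) = 0 := by
  have e := g3 (h.iw hz.h0) (h.hz hz.h0) hz.h0 b c d
  have hq : ∀ {x y t : σ → FF σ K}, ph p q z x = 0 → ph p q z t = 0 → q3 A z z x y t =
      -2 * (kap a y ⬝ᵥ (ets p q z * (ss p q z x * ss p q z t))) := by
    intro x y t hx ht
    rw [q3, h.dot_aa, h.en_eq hz hx ht, dotProduct_smul, smul_eq_mul]
  rw [s3, hq hd hb, hq hd hc, hq hc hb, hq hc hd, hq hb hc, hq hb hd,
    mul_comm (ss p q z d) (ss p q z b), mul_comm (ss p q z d) (ss p q z c),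
    mul_comm (ss p q z c) (ss p q z b)] at e
  have e' : (2 * 2) * (kap a b ⬝ᵥ (ets p q z * (ss p q z c * ss p q z d)) +
      kap a c ⬝ᵥ (ets p q z * (ss p q z b * ss p q z d)) +
      kap a d ⬝ᵥ (ets p q z * (ss p q z b * ss p q z c))) = 0 := by
    linear_combination -e
  exact (mul_eq_zero.1 e').resolve_left (mul_ne_zero h2 h2)

end DatS

end main

section cub

universe u v

variable {σ : Type v} {ι : Type v} {K : Type u} [Field K] [DecidableEq σ] [Fintype σ] [Fintype ι]
  {n : Type v} [Fintype n]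

namespace DatS

variable {B : Matrix n n K} {A : σ → Matrix n n K} {p q : ι → n → K}
    {a : σ → ι → K} {X : Submodule K (n → K)}

/-- The rank of `s` on the kernel of `φ` is small. -/
theorem finrank_ss (hcub : S_CUB.{max u v, v, max u v}) (h : DatS B A p q a X)
    (h2 : (2 : FF σ K) ≠ 0) (h3 : (3 : FF σ K) ≠ 0) {z : n → FF σ K}
    (hz : GZ B A p q X z) {c : ℕ} (hc : Fintype.card ι ≤ finrank K (WW a) + c) :
    finrank (FF σ K) ((LinearMap.ker (ph p q z)).map (ss p q z)) ≤ 20 * c := by
  have e1 := h.finrank_ph h2 hz.h0 hc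
  have e2 := finrank_map_codim (kap (σ := σ) a) (S₁ := LinearMap.ker (ph p q z)) (S := ⊤) le_top
  have e4 := Submodule.finrank_mono (ext_le_range (σ := σ) a)
  rw [finrank_ext] at e4
  rw [Submodule.map_top, finrank_top] at e2
  have e3 : LinearMap.range (kap a ∘ₗ (LinearMap.ker (ph p q z)).subtype) =
      (LinearMap.ker (ph p q z)).map (kap a) := by
    rw [LinearMap.range_comp, Submodule.range_subtype]
  have e5 : LinearMap.range (ss p q z ∘ₗ (LinearMap.ker (ph p q z)).subtype) =
      (LinearMap.ker (ph p q z)).map (ss p q z) := by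
    rw [LinearMap.range_comp, Submodule.range_subtype]
  have := hcub (FF σ K) ι (LinearMap.ker (ph p q z)) (ets p q z)
    (kap a ∘ₗ (LinearMap.ker (ph p q z)).subtype)
    (ss p q z ∘ₗ (LinearMap.ker (ph p q z)).subtype) (2 * c) h3 (by
      intro i hi b
      change ss p q z b i = 0
      have hi' : zt p z i * zt q z i = 0 := hi
      rw [ss_apply, hi', _root_.inv_zero, mul_zero, zero_mul]) (by
      intro b c d
      exact h.cubic h2 hz b.2 c.2 d.2) (by
      rw [e3]
      omega)
  rw [e5] at this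
  omega

end DatS

end cub

end Pool.Agent.W981.Sym
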