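import Pool.Agent.W981.Sym.Three
import Pool.Agent.W981.Aff.Points
import Pool.Agent.W973.SYM.J
import Pool.Agent.W398.Sym.Cub

/-!
# The block theorem for affine families of symmetric matrices
-/

set_option autoImplicit false
set_option linter.unusedSectionVars false

namespace Pool.Agent.W981.Sym

open Pool.Agent.W981.Hyp Pool.Agent.W981.Blk Pool.Agent.W981.Aff Module Matrix MvPolynomial

section main

variable {σ ι K : Type*} [Field K] [DecidableEq σ] [Fintype σ] [Fintype ι]
  {n : Type*} [Fintype n]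

/-- a second good vector -/
def GZ2 (B : Matrix n n K) (A : σ → Matrix n n K) (p q : ι → n → K) (z z' : n → FF σ K) : Prop :=
  ∀ i, zt p z i * zt q z' i - zt q z i * zt p z' i = 0 → ∀ x : n → FF σ K, gaf B A *ᵥ x = 0 →
    zt p z i * zt q x i - zt q z i * zt p x i = 0

namespace DatS

variable {B : Matrix n n K} {A : σ → Matrix n n K} {p q : ι → n → K}
    {a : σ → ι → K} {X : Submodule K (n → K)} {w z z' : n → FF σ K}

theorem dim_enl (h : DatS B A p q a X) (hw : IW B A X w) {c : ℕ}
    (hc : Fintype.card ι ≤ finrank K (WW a) + c) {S : Submodule (FF σ K) (n → FF σ K)}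
    (hS : S ≤ LinearMap.ker (gaf B A).mulVecLin) :
    finrank (FF σ K) (S.map (enl p q w)) ≤ c := by
  refine perp_small hc _ ?_
  rintro _ ⟨x, hx, rfl⟩ b
  rw [← h.dot_aa]
  exact g0 hw (h.ker_le (hS hx)) (hS hx) b

/-- most of the kernel lies in `U₁` -/
theorem dim_Z (h : DatS B A p q a X) (h2 : (2 : FF σ K) ≠ 0) (hz : GZ B A p q X z)
    (hz' : gaf B A *ᵥ z' = 0) (hzz : GZ2 B A p q z z') (hw : GW B A q X w) {c : ℕ}
    (hc : Fintype.card ι ≤ finrank K (WW a) + c) :
    finrank (FF σ K) (LinearMap.ker (gaf B A).mulVecLin) ≤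
      finrank (FF σ K) (LinearMap.ker (gaf B A).mulVecLin ⊓ ext (FF σ K) (uu B A p q X) :
        Submodule (FF σ K) (n → FF σ K)) + 3 * c := by
  set Z := LinearMap.ker (gaf B A).mulVecLin with hZ
  set Z1 : Submodule (FF σ K) (n → FF σ K) := LinearMap.ker (enl p q z) ⊓ Z with hZ1
  set Z2 : Submodule (FF σ K) (n → FF σ K) := LinearMap.ker (enl p q z') ⊓ Z1 with hZ2
  set Z3 : Submodule (FF σ K) (n → FF σ K) := LinearMap.ker (enl p q w) ⊓ Z2 with hZ3
  have k1 : Z1 ≤ Z := inf_le_right
  have k2 : Z2 ≤ Z := inf_le_right.trans k1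
  have k3 : Z3 ≤ Z := inf_le_right.trans k2
  have a1 := finrank_map_add (enl p q z) Z
  have a2 := finrank_map_add (enl p q z') Z1
  have a3 := finrank_map_add (enl p q w) Z2
  rw [← hZ1] at a1
  rw [← hZ2] at a2
  rw [← hZ3] at a3
  have b1 := h.dim_enl (h.iw hz.h0) hc (le_refl Z)
  have b2 := h.dim_enl (h.iw hz') hc k1
  have b3 := h.dim_enl hw.h0 hc k2
  have c1 : Z3 ≤ Z ⊓ ext (FF σ K) (uu B A p q X) := by
    intro x hx
    have hxZ : gaf B A *ᵥ x = 0 := k3 hx
    have hxX := h.hz hxZ
    have d1 : ∀ i, zt p z i * zt q x i + zt q z i * zt p x i = 0 :=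
      fun i => congrFun (show enl p q z x = 0 from hx.2.2.1) i
    have d2 : ∀ i, zt p z' i * zt q x i + zt q z' i * zt p x i = 0 :=
      fun i => congrFun (show enl p q z' x = 0 from hx.2.1) i
    have d3 : ∀ i, zt p w i * zt q x i + zt q w i * zt p x i = 0 :=
      fun i => congrFun (show enl p q w x = 0 from hx.1) i
    have key : ∀ i, ¬ dead q X i → zt p x i = 0 ∧ zt q x i = 0 := by
      intro i hi
      have hp : zt p z i ≠ 0 := fun h0 => hi (h.hpq i (hz.hp i h0))
      have hq : zt q z i ≠ 0 := fun h0 => hi (hz.hq i h0)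
      by_cases hdet : zt p z i * zt q z' i - zt q z i * zt p z' i = 0
      · have e1 := hzz i hdet x hxZ
        have e2 : 2 * (zt p z i * zt q x i) = 0 := by linear_combination e1 + d1 i
        have e3 : 2 * (zt q z i * zt p x i) = 0 := by linear_combination d1 i - e1
        exact ⟨((mul_eq_zero.1 ((mul_eq_zero.1 e3).resolve_left h2)).resolve_left hq),
          ((mul_eq_zero.1 ((mul_eq_zero.1 e2).resolve_left h2)).resolve_left hp)⟩
      · have e1 : (zt p z i * zt q z' i - zt q z i * zt p z' i) * zt p x i = 0 := by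
          linear_combination zt p z i * d2 i - zt p z' i * d1 i
        have e2 : (zt p z i * zt q z' i - zt q z i * zt p z' i) * zt q x i = 0 := by
          linear_combination zt q z' i * d1 i - zt q z i * d2 i
        exact ⟨(mul_eq_zero.1 e1).resolve_left hdet, (mul_eq_zero.1 e2).resolve_left hdet⟩
    refine ⟨hxZ, mem_ext_uu hxX (fun i => ?_) (fun i hi => ?_)⟩
    · by_cases hd : dead q X i
      · exact zt_dead hd hxX
      · exact (key i hd).2
    · by_cases hd : dead q X i
      · have e1 := d3 i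
        rw [zt_dead hd hxX, mul_zero, zero_add] at e1
        exact (mul_eq_zero.1 e1).resolve_left fun h0 => hi ⟨hd, hw.hq i h0⟩
      · exact (key i hd).1
  have c2 := Submodule.finrank_mono c1
  omega

theorem im_X (h : DatS B A p q a X) {H : Submodule K (n → K)}
    (hH : ∀ i, ∀ x ∈ X, (q i ⬝ᵥ x) • p i + (p i ⬝ᵥ x) • q i ∈ H) : im A X ≤ H := by
  rw [im_le]
  intro k x hx
  rw [h.A_mulVec]
  exact Submodule.sum_mem _ fun i _ => Submodule.smul_mem _ _ (hH i x hx)

theorem map_le_H [CharZero K] (h : DatS B A p q a X) {H : Submodule K (n → K)}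
    (hH : im A X ≤ H) :
    (ext (FF σ K) X).map (gaf B A).mulVecLin ≤ ext (FF σ K) H := by
  have h1 : ext (FF σ K) X ≤ ext (FF σ K) X ⊓
      (ext (FF σ K) H).comap (gaf B A).mulVecLin := by
    nth_rewrite 1 [h.hX]
    refine ext_hull_le _ _ ?_ ?_
    · rintro k x ⟨hx1, hx2⟩
      refine Submodule.mem_inf.2 ⟨dv_mem _ hx1, ?_⟩
      have hx2' : gaf B A *ᵥ x ∈ ext (FF σ K) H := hx2
      have e1 := dv_gaf (B := B) (A := A) k x
      have e2 : gaf B A *ᵥ dv (dF k) x = dv (dF k) (gaf B A *ᵥ x) -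
          (A k).map (algebraMap K (FF σ K)) *ᵥ x := by
        rw [e1, add_sub_cancel_right]
      rw [Submodule.mem_comap, mulVecLin_apply, e2]
      exact Submodule.sub_mem _ (dv_mem _ hx2') (mulVec_mem_ext (im_le.1 hH k) hx1)
    · refine le_inf h.ker_le ?_
      intro x hx
      have hx' : gaf B A *ᵥ x = 0 := hx
      rw [Submodule.mem_comap, mulVecLin_apply, hx']
      exact Submodule.zero_mem _
  rintro _ ⟨x, hx, rfl⟩
  exact (h1 hx).2

theorem imB_X [CharZero K] (h : DatS B A p q a X) {H : Submodule K (n → K)}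
    (hH : im A X ≤ H) : imB B A X ≤ H := by
  refine sup_le ?_ hH
  rintro _ ⟨x, hx, rfl⟩
  rw [mulVecLin_apply, ← up_mem_iff (F := FF σ K), up_B B A]
  exact Submodule.sub_mem _ (h.map_le_H hH ⟨_, up_mem hx, rfl⟩) (gen_mem hH (up_mem hx))

theorem cert (h : DatS B A p q a X) : (gaf B A).rank + finrank K X = Fintype.card n +
    finrank (FF σ K) ((ext (FF σ K) X).map (gaf B A).mulVecLin ⊔
      ext (FF σ K) (imB B A (uu B A p q X)) : Submodule (FF σ K) (n → FF σ K)) := by
  rw [sup_eq_left.2 h.ext_imB_uu]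
  have e1 := finrank_map_add (gaf B A).mulVecLin (ext (FF σ K) X)
  rw [inf_eq_left.2 h.ker_le, finrank_ext] at e1
  have e2 := LinearMap.finrank_range_add_finrank_ker (gaf B A).mulVecLin
  rw [finrank_fintype_fun_eq_card] at e2
  change (gaf B A).rank + _ = _ at e2
  omega

end DatS

end main

section final

universe u v

variable {σ : Type v} {ι : Type v} {K : Type u} [Field K] [DecidableEq σ] [Fintype σ] [Fintype ι]
  {n : Type v} [Fintype n]

/-- the family of functionals for the generic vectors -/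
noncomputable def fam (p q : ι → n → K) (X : Submodule K (n → K)) :
    {i : ι // ¬ dead p X i} ⊕ {i : ι // ¬ dead q X i} → Dual (FF σ K) (n → FF σ K) :=
  Sum.elim
    (fun i => ⟨⟨fun y => up (FF σ K) (p i.1) ⬝ᵥ y, fun a b => dotProduct_add _ _ _⟩,
        fun c a => dotProduct_smul _ _ _⟩)
    (fun i => ⟨⟨fun y => up (FF σ K) (q i.1) ⬝ᵥ y, fun a b => dotProduct_add _ _ _⟩,
        fun c a => dotProduct_smul _ _ _⟩)

namespace DatS

variable {B : Matrix n n K} {A : σ → Matrix n n K} {p q : ι → n → K}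
    {a : σ → ι → K} {X : Submodule K (n → K)}

theorem fam_ne (h : DatS B A p q a X) (j : {i : ι // ¬ dead p X i} ⊕ {i : ι // ¬ dead q X i}) :
    ∃ z ∈ LinearMap.ker (gaf B A).mulVecLin, fam (σ := σ) p q X j z ≠ 0 := by
  rcases j with ⟨i, hi⟩ | ⟨i, hi⟩
  · by_contra hcon
    push Not at hcon
    refine hi fun x hx => ?_
    rw [h.hX] at hx
    exact hx (p i) fun z hz => hcon z hz
  · by_contra hcon
    push Not at hcon
    refine hi fun x hx => ?_
    rw [h.hX] at hx
    exact hx (q i) fun z hz => hcon z hz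

theorem gz_of_fam {z : n → FF σ K} (hz : gaf B A *ᵥ z = 0)
    (hf : ∀ j, fam (σ := σ) p q X j z ≠ 0) : GZ B A p q X z where
  h0 := hz
  hp i hi := by
    by_contra h0
    exact hf (Sum.inl ⟨i, h0⟩) hi
  hq i hi := by
    by_contra h0
    exact hf (Sum.inr ⟨i, h0⟩) hi

theorem exists_z [Infinite (FF σ K)] (h : DatS B A p q a X) :
    ∃ z : n → FF σ K, GZ B A p q X z := by
  obtain ⟨z, hz, hf⟩ := Module.Dual.exists_forall_mem_ne_zero_of_forall_exists
    (LinearMap.ker (gaf B A).mulVecLin) (fam (σ := σ) p q X) h.fam_ne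
  exact ⟨z, gz_of_fam hz hf⟩

theorem exists_w [Infinite (FF σ K)] (B : Matrix n n K) (A : σ → Matrix n n K)
    (q : ι → n → K) (X : Submodule K (n → K)) : ∃ w : n → FF σ K, GW B A q X w := by
  classical
  set Q : Submodule (FF σ K) (n → FF σ K) := (ext (FF σ K) X).map (gaf B A).mulVecLin with hQ
  obtain ⟨w, hw, hwu⟩ := Module.Dual.exists_forall_mem_ne_zero_of_forall_exists (perp Q)
    (fun i : {i // up (FF σ K) (q i) ∉ Q} =>
      (⟨⟨fun y => y ⬝ᵥ up (FF σ K) (q i.1), fun a b => add_dotProduct _ _ _⟩,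
        fun c a => smul_dotProduct _ _ _⟩ : (n → FF σ K) →ₗ[FF σ K] FF σ K)) (by
      rintro ⟨i, hi⟩
      by_contra hcon
      push Not at hcon
      exact hi (mem_iff_dot.2 fun ψ hψ => hcon ψ hψ))
  refine ⟨w, fun y hy => hw _ ⟨y, hy, rfl⟩, fun i hi => ?_⟩
  by_contra h0
  refine hwu ⟨i, h0⟩ ?_
  change w ⬝ᵥ up (FF σ K) (q i) = 0
  rw [dotProduct_comm]
  exact hi

theorem exists_z2 [Infinite (FF σ K)] (B : Matrix n n K) (A : σ → Matrix n n K)
    (p q : ι → n → K) (z : n → FF σ K) :
    ∃ z' : n → FF σ K, gaf B A *ᵥ z' = 0 ∧ GZ2 B A p q z z' := by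
  classical
  let f : ι → Dual (FF σ K) (n → FF σ K) := fun i =>
    ⟨⟨fun y => zt p z i * zt q y i - zt q z i * zt p y i, fun a b => by
      simp only [zt, dotProduct_add]; ring⟩, fun c a => by
      simp only [zt, dotProduct_smul, smul_eq_mul, RingHom.id_apply]; ring⟩
  obtain ⟨z', hz', hf⟩ := Module.Dual.exists_forall_mem_ne_zero_of_forall_exists
    (LinearMap.ker (gaf B A).mulVecLin)
    (fun i : {i // ∃ x ∈ LinearMap.ker (gaf B A).mulVecLin, f i x ≠ 0} => f i.1)
    (fun i => i.2)
  refine ⟨z', hz', fun i hi x hx => ?_⟩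
  by_contra h0
  exact hf ⟨i, x, hx, h0⟩ hi

/-- **The dimension counts.** -/
theorem final [CharZero K] (h : DatS B A p q a X) {c : ℕ}
    (hc : Fintype.card ι ≤ finrank K (WW a) + c) :
    finrank K X ≤ finrank K (uu B A p q X) + 180 * c ∧
      finrank K (imB B A X) ≤ finrank K (imB B A (uu B A p q X)) + 177 * c := by
  have hinfK : Infinite K := CharZero.infinite K
  have hinf : Infinite (FF σ K) := Infinite.of_injective (algebraMap K (FF σ K))
    (algebraMap K (FF σ K)).injective
  have h2 : (2 : FF σ K) ≠ 0 := by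
    have : (2 : FF σ K) = algebraMap K (FF σ K) 2 := by rw [map_ofNat]
    rw [this, Ne, map_eq_zero]
    exact two_ne_zero
  have h3 : (3 : FF σ K) ≠ 0 := by
    have : (3 : FF σ K) = algebraMap K (FF σ K) 3 := by rw [map_ofNat]
    rw [this, Ne, map_eq_zero]
    exact three_ne_zero
  have hcub := Pool.Agent.W398.Sym.main.{max u v, v, max u v}
  obtain ⟨z, hz⟩ := h.exists_z
  obtain ⟨w, hw⟩ := exists_w (σ := σ) B A q X
  obtain ⟨z', hz', hzz⟩ := exists_z2 B A p q z
  obtain ⟨H, hH0, hH1, hH2⟩ := Pool.Agent.W973.SYM.jarg.{u, max u v, v, v} K (FF σ K) n ι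
    ({i : ι // ¬ dead p X i} ⊕ {i : ι // ¬ dead q X i}) (LinearMap.ker (gaf B A).mulVecLin) p q
    (hh B A p q X) (59 * c) (fam (σ := σ) p q X) h.fam_ne
    (fun y hy hf => h.forJ hcub h2 h3 (gz_of_fam hy hf) hw hc)
  rw [← h.hX] at hH2
  have a1 := h.dim_hh hcub h2 h3 hz hw hc
  have a2 := h.dim_Z h2 hz hz' hzz hw hc
  have hX := h.im_X hH2
  have a3 := Submodule.finrank_mono (h.map_le_H hX)
  rw [finrank_ext] at a3
  have a4 := Submodule.finrank_mono (h.imB_X hX)
  have a5 := Submodule.finrank_mono (map_gaf_le B A (uu B A p q X))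
  rw [finrank_ext] at a5
  have a6 := finrank_map_add (gaf B A).mulVecLin (ext (FF σ K) X)
  rw [inf_eq_left.2 h.ker_le, finrank_ext] at a6
  have a7 := finrank_map_add (gaf B A).mulVecLin (ext (FF σ K) (uu B A p q X))
  rw [finrank_ext] at a7
  constructor
  · omega
  · omega

end DatS

theorem exists_datS (B : Matrix n n K) (A : σ → Matrix n n K) (hB : Bᵀ = B)
    (p q : ι → n → K) (a : σ → ι → K)
    (hA : ∀ k, A k = ∑ i, a k i • (vecMulVec (p i) (q i) + vecMulVec (q i) (p i))) :
    ∃ (p' q' : ι → n → K) (X : Submodule K (n → K)), DatS B A p' q' a X := by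
  classical
  set X := hull K (LinearMap.ker (gaf B A).mulVecLin) with hX
  refine ⟨fun i => if dead p X i then q i else p i, fun i => if dead p X i then p i else q i, X,
    hB, fun k => ?_, rfl, fun i hi => ?_⟩
  · rw [hA k]
    refine Finset.sum_congr rfl fun i _ => ?_
    by_cases hd : dead p X i
    · rw [if_pos hd, if_pos hd, add_comm]
    · rw [if_neg hd, if_neg hd]
  · by_cases hd : dead p X i
    · intro x hx
      change (if dead p X i then p i else q i) ⬝ᵥ x = 0
      rw [if_pos hd]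
      exact hd x hx
    · exfalso
      refine hd fun x hx => ?_
      have h1 : (if dead p X i then q i else p i) ⬝ᵥ x = 0 := hi x hx
      rwa [if_neg hd] at h1

/-- **The block theorem for affine families of symmetric matrices.** -/
theorem blocksS [CharZero K] (B : Matrix n n K) (hB : Bᵀ = B) (A : σ → Matrix n n K)
    (R : Set (Matrix n n K)) (hR : ∀ T ∈ R, ∃ u v, T = vecMulVec u v + vecMulVec v u)
    (hA : ∀ k, A k ∈ Submodule.span K R) (c : ℕ)
    (hc : finrank K (Submodule.span K R) ≤ finrank K (Submodule.span K (Set.range A)) + c) :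
    ∃ U₁ U₂ : Submodule K (n → K), U₁ ≤ U₂ ∧
      finrank K U₂ ≤ finrank K U₁ + 180 * c ∧
      finrank K (imB B A U₂) ≤ finrank K (imB B A U₁) + 177 * c ∧
      (gaf B A).rank + finrank K U₂ = Fintype.card n +
        finrank (FF σ K) ((ext (FF σ K) U₂).map (gaf B A).mulVecLin ⊔
          ext (FF σ K) (imB B A U₁) : Submodule (FF σ K) (n → FF σ K)) := by
  obtain ⟨T, hTR, hTs, -⟩ := Submodule.exists_fun_fin_finrank_span_eq K R
  have huv : ∀ i, ∃ u v, T i = vecMulVec u v + vecMulVec v u := fun i => hR _ (hTR i)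
  choose u v huv using huv
  have hA' : ∀ k, ∃ a : Fin (finrank K (Submodule.span K R)) → K,
      ∑ i, a i • T i = A k := by
    intro k
    have := hA k
    rw [← hTs] at this
    exact (Submodule.mem_span_range_iff_exists_fun K).1 this
  choose a ha using hA'
  have hc' : Fintype.card (Fin (finrank K (Submodule.span K R))) ≤ finrank K (WW a) + c := by
    rw [Fintype.card_fin]
    refine hc.trans (Nat.add_le_add_right ?_ _)
    have h3 : Submodule.span K (Set.range A) ≤
        (WW a).map (Fintype.linearCombination K T) := by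
      rw [Submodule.span_le]
      rintro _ ⟨k, rfl⟩
      exact ⟨a k, Submodule.subset_span ⟨k, rfl⟩, ha k⟩
    exact (Submodule.finrank_mono h3).trans (Submodule.finrank_map_le _ _)
  -- move the index set to the right universe
  let e : ULift.{v} (Fin (finrank K (Submodule.span K R))) ≃
    Fin (finrank K (Submodule.span K R)) := Equiv.ulift
  obtain ⟨p, q, X, h⟩ := exists_datS (ι := ULift.{v} (Fin (finrank K (Submodule.span K R))))
    B A hB (fun i => u (e i)) (fun i => v (e i)) (fun k i => a k (e i)) (fun k => by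
      rw [← ha k]
      rw [← Equiv.sum_comp e]
      exact Finset.sum_congr rfl fun i _ => by rw [huv])
  have hWW : finrank K (WW a) ≤ finrank K (WW fun k (i : ULift.{v}
      (Fin (finrank K (Submodule.span K R)))) => a k (e i)) := by
    have h3 : WW a ≤ (WW fun k (i : ULift.{v}
      (Fin (finrank K (Submodule.span K R)))) => a k (e i)).map
        (LinearMap.funLeft K K e.symm) := by
      rw [WW, Submodule.span_le]
      rintro _ ⟨k, rfl⟩
      refine ⟨_, Submodule.subset_span ⟨k, rfl⟩, ?_⟩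
      funext i
      rfl
    exact (Submodule.finrank_mono h3).trans (Submodule.finrank_map_le _ _)
  have hcard : Fintype.card (ULift.{v} (Fin (finrank K (Submodule.span K R)))) =
      Fintype.card (Fin (finrank K (Submodule.span K R))) := Fintype.card_congr e
  obtain ⟨f1, f2⟩ := h.final (c := c) (by
    rw [hcard]
    omega)
  exact ⟨uu B A p q X, X, uu_le, f1, f2, h.cert⟩

end final

end Pool.Agent.W981.Sym
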