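import Pool.Agent.W981.Aff.Dims

/-!
# The identities for affine families, general form
-/

set_option autoImplicit false
set_option linter.unusedSectionVars false

namespace Pool.Agent.W981.Sym

open Pool.Agent.W981.Hyp Pool.Agent.W981.Blk Pool.Agent.W981.Aff Module Matrix MvPolynomial

section general

variable {σ K : Type*} [Field K] [DecidableEq σ] [Fintype σ] {n m : Type*} [Fintype n] [Fintype m]

/-- the matrix `∑ b_k A_k` applied to `x` -/
noncomputable def aa (A : σ → Matrix m n K) (b : σ → FF σ K) (x : n → FF σ K) : m → FF σ K :=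
  ∑ k, b k • ((A k).map (algebraMap K (FF σ K)) *ᵥ x)

theorem aa_add_left (A : σ → Matrix m n K) (b b' : σ → FF σ K) (x : n → FF σ K) :
    aa A (b + b') x = aa A b x + aa A b' x := by
  simp only [aa, ← Finset.sum_add_distrib, Pi.add_apply, add_smul]

theorem aa_smul_left (A : σ → Matrix m n K) (c : FF σ K) (b : σ → FF σ K) (x : n → FF σ K) :
    aa A (c • b) x = c • aa A b x := by
  simp only [aa, Finset.smul_sum, Pi.smul_apply, smul_eq_mul, mul_smul]

theorem aa_add_right (A : σ → Matrix m n K) (b : σ → FF σ K) (x x' : n → FF σ K) :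
    aa A b (x + x') = aa A b x + aa A b x' := by
  simp only [aa, ← Finset.sum_add_distrib, mulVec_add, smul_add]

theorem aa_smul_right (A : σ → Matrix m n K) (c : FF σ K) (b : σ → FF σ K) (x : n → FF σ K) :
    aa A b (c • x) = c • aa A b x := by
  simp only [aa, Finset.smul_sum, mulVec_smul]
  exact Finset.sum_congr rfl fun k _ => smul_comm _ _ _

theorem aa_single (A : σ → Matrix m n K) (k : σ) (x : n → FF σ K) :
    aa A (Pi.single k 1) x = (A k).map (algebraMap K (FF σ K)) *ᵥ x := by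
  rw [aa, Finset.sum_eq_single k]
  · rw [Pi.single_eq_same, one_smul]
  · intro j _ hj
    rw [Pi.single_eq_of_ne hj, zero_smul]
  · intro h
    exact absurd (Finset.mem_univ _) h

variable {B : Matrix m n K} {A : σ → Matrix m n K}

theorem gaf_zb {z : n → FF σ K} (hz0 : gaf B A *ᵥ z = 0) (b : σ → FF σ K) :
    gaf B A *ᵥ zb z b = -aa A b z := by
  rw [zb, Fintype.linearCombination_apply, mulVec_sum, aa, ← Finset.sum_neg_distrib]
  refine Finset.sum_congr rfl fun k _ => ?_
  rw [mulVec_smul, gaf_dv hz0, smul_neg]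

variable {X : Submodule K (n → K)} {w : m → FF σ K}

theorem g0 (hw : ∀ y ∈ ext (FF σ K) X, w ⬝ᵥ (gaf B A *ᵥ y) = 0) {x : n → FF σ K}
    (hx : x ∈ ext (FF σ K) X) (hx0 : gaf B A *ᵥ x = 0) (b : σ → FF σ K) :
    w ⬝ᵥ aa A b x = 0 := by
  refine lin_ext (T := fun b => w ⬝ᵥ aa A b x) ?_ ?_ ?_ b
  · intro b c
    simp only [aa_add_left, dotProduct_add]
  · intro c b
    simp only [aa_smul_left, dotProduct_smul, smul_eq_mul]
  · intro k
    rw [aa_single]
    exact id0 hw hx hx0 k

theorem g1 (hw : ∀ y ∈ ext (FF σ K) X, w ⬝ᵥ (gaf B A *ᵥ y) = 0) {z : n → FF σ K}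
    (hz : z ∈ ext (FF σ K) X) (hz0 : gaf B A *ᵥ z = 0) (b c : σ → FF σ K) :
    w ⬝ᵥ aa A c (zb z b) = zb w c ⬝ᵥ aa A b z := by
  rw [← sub_eq_zero]
  refine lin_ext (T := fun b => w ⬝ᵥ aa A c (zb z b) - zb w c ⬝ᵥ aa A b z) ?_ ?_ ?_ b
  · intro b b'
    simp only [map_add, aa_add_left, aa_add_right, dotProduct_add]
    ring
  · intro r b
    simp only [map_smul, aa_smul_left, aa_smul_right, dotProduct_smul, smul_eq_mul]
    ring
  · intro k
    refine lin_ext (T := fun c => w ⬝ᵥ aa A c (zb z (Pi.single k 1)) -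
      zb w c ⬝ᵥ aa A (Pi.single k 1) z) ?_ ?_ ?_ c
    · intro c c'
      simp only [map_add, aa_add_left, dotProduct_add, add_dotProduct]
      ring
    · intro r c
      simp only [map_smul, aa_smul_left, dotProduct_smul, smul_dotProduct, smul_eq_mul]
      ring
    · intro j
      rw [aa_single, aa_single, zb_single, zb_single, id1 hw hz hz0, sub_self]

theorem g2 (hw : ∀ y ∈ ext (FF σ K) X, w ⬝ᵥ (gaf B A *ᵥ y) = 0) {z : n → FF σ K}
    (hz : z ∈ ext (FF σ K) X) (hz0 : gaf B A *ᵥ z = 0) (b c : σ → FF σ K) :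
    w ⬝ᵥ aa A c (zb z b) + w ⬝ᵥ aa A b (zb z c) = 0 := by
  refine lin_ext (T := fun b => w ⬝ᵥ aa A c (zb z b) + w ⬝ᵥ aa A b (zb z c)) ?_ ?_ ?_ b
  · intro b b'
    simp only [map_add, aa_add_left, aa_add_right, dotProduct_add]
    ring
  · intro r b
    simp only [map_smul, aa_smul_left, aa_smul_right, dotProduct_smul, smul_eq_mul]
    ring
  · intro k
    refine lin_ext (T := fun c => w ⬝ᵥ aa A c (zb z (Pi.single k 1)) +
      w ⬝ᵥ aa A (Pi.single k 1) (zb z c)) ?_ ?_ ?_ c
    · intro c c'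
      simp only [map_add, aa_add_left, aa_add_right, dotProduct_add]
      ring
    · intro r c
      simp only [map_smul, aa_smul_left, aa_smul_right, dotProduct_smul, smul_eq_mul]
      ring
    · intro j
      rw [aa_single, aa_single, zb_single, zb_single]
      exact id2 hw hz hz0 k j

/-- the third order form -/
noncomputable def q3 (A : σ → Matrix m n K) (w : m → FF σ K)
    (z : n → FF σ K) (c b d : σ → FF σ K) : FF σ K :=
  zb w c ⬝ᵥ aa A b (zb z d)

variable {z : n → FF σ K}

theorem q3_add1 (c c' b d : σ → FF σ K) :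
    q3 A w z (c + c') b d = q3 A w z c b d + q3 A w z c' b d := by
  simp only [q3, map_add, add_dotProduct]

theorem q3_add2 (c b b' d : σ → FF σ K) :
    q3 A w z c (b + b') d = q3 A w z c b d + q3 A w z c b' d := by
  simp only [q3, aa_add_left, dotProduct_add]

theorem q3_add3 (c b d d' : σ → FF σ K) :
    q3 A w z c b (d + d') = q3 A w z c b d + q3 A w z c b d' := by
  simp only [q3, map_add, aa_add_right, dotProduct_add]

theorem q3_smul1 (r : FF σ K) (c b d : σ → FF σ K) :
    q3 A w z (r • c) b d = r * q3 A w z c b d := by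
  simp only [q3, map_smul, smul_dotProduct, smul_eq_mul]

theorem q3_smul2 (r : FF σ K) (c b d : σ → FF σ K) :
    q3 A w z c (r • b) d = r * q3 A w z c b d := by
  simp only [q3, aa_smul_left, dotProduct_smul, smul_eq_mul]

theorem q3_smul3 (r : FF σ K) (c b d : σ → FF σ K) :
    q3 A w z c b (r • d) = r * q3 A w z c b d := by
  simp only [q3, map_smul, aa_smul_right, dotProduct_smul, smul_eq_mul]

/-- the symmetrised form -/
noncomputable def s3 (A : σ → Matrix m n K) (w : m → FF σ K)
    (z : n → FF σ K) (b c d : σ → FF σ K) : FF σ K :=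
  q3 A w z d c b + q3 A w z d b c + (q3 A w z c d b + q3 A w z c b d) +
    (q3 A w z b d c + q3 A w z b c d)

theorem g3 (hw : ∀ y ∈ ext (FF σ K) X, w ⬝ᵥ (gaf B A *ᵥ y) = 0)
    (hz : z ∈ ext (FF σ K) X) (hz0 : gaf B A *ᵥ z = 0) (b c d : σ → FF σ K) :
    s3 A w z b c d = 0 := by
  refine lin_ext (T := fun b => s3 A w z b c d) ?_ ?_ ?_ b
  · intro b b'
    simp only [s3, q3_add1, q3_add2, q3_add3]
    ring
  · intro r b
    simp only [s3, q3_smul1, q3_smul2, q3_smul3]
    ring
  intro i
  refine lin_ext (T := fun c => s3 A w z (Pi.single i 1) c d) ?_ ?_ ?_ c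
  · intro b b'
    simp only [s3, q3_add1, q3_add2, q3_add3]
    ring
  · intro r b
    simp only [s3, q3_smul1, q3_smul2, q3_smul3]
    ring
  intro j
  refine lin_ext (T := fun d => s3 A w z (Pi.single i 1) (Pi.single j 1) d) ?_ ?_ ?_ d
  · intro b b'
    simp only [s3, q3_add1, q3_add2, q3_add3]
    ring
  · intro r b
    simp only [s3, q3_smul1, q3_smul2, q3_smul3]
    ring
  intro k
  simp only [s3, q3, aa_single, zb_single]
  exact id3 hw hz hz0 i j k

end general

section cut

variable {K F : Type*} [Field K] [Field F] [Algebra K F] {n ω : Type*} [Fintype n]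

/-- the subspace of `X` cut out by the functionals `ψ_j` -/
def cut (X : Submodule K (n → K)) (ψ : ω → n → K) : Submodule K (n → K) where
  carrier := {x | x ∈ X ∧ ∀ j, ψ j ⬝ᵥ x = 0}
  add_mem' := by
    rintro x y ⟨hx, hx'⟩ ⟨hy, hy'⟩
    exact ⟨Submodule.add_mem _ hx hy, fun i => by
      rw [dotProduct_add, hx' i, hy' i, add_zero]⟩
  zero_mem' := ⟨Submodule.zero_mem _, fun i => dotProduct_zero _⟩
  smul_mem' := by
    rintro c x ⟨hx, hx'⟩
    exact ⟨Submodule.smul_mem _ _ hx, fun i => by rw [dotProduct_smul, hx' i, smul_zero]⟩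

theorem cut_le (X : Submodule K (n → K)) (ψ : ω → n → K) : cut X ψ ≤ X := fun _ h => h.1

theorem mem_ext_cut [Fintype ω] {X : Submodule K (n → K)} {ψ : ω → n → K} {x : n → F}
    (hx : x ∈ ext F X) (h : ∀ j, up F (ψ j) ⬝ᵥ x = 0) : x ∈ ext F (cut X ψ) := by
  classical
  obtain ⟨P, hP1, hP2⟩ := exists_ker X
  set B : Matrix (n ⊕ ω) n K := fromRows P (Matrix.of ψ) with hB
  have h1 : x ∈ ext F ((⊥ : Submodule K (n ⊕ ω → K)).comap B.mulVecLin) := by
    apply mem_ext_comap
    have h2 : B.map (algebraMap K F) *ᵥ x = 0 := by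
      funext i
      rcases i with i | i
      · change up F (P i) ⬝ᵥ x = 0
        refine dot_of_mem hx fun y hy => ?_
        exact congrFun (hP1 y hy) i
      · change up F (ψ i) ⬝ᵥ x = 0
        exact h i
    rw [h2]
    exact Submodule.zero_mem _
  refine ext_mono ?_ h1
  intro y hy
  have hy' : B *ᵥ y = 0 := by
    rw [Submodule.mem_comap, Submodule.mem_bot] at hy
    exact hy
  refine ⟨?_, fun i => congrFun hy' (Sum.inr i)⟩
  have h3 : P *ᵥ y = 0 := by
    funext i
    exact congrFun hy' (Sum.inl i)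
  have h4 := hP2 y
  rwa [h3, sub_zero] at h4

end cut

end Pool.Agent.W981.Sym
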