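import Pool.Agent.W981.Sym.Two

/-!
# Affine families of symmetric matrices: the subspaces `U₁` and `H₀`
-/

set_option autoImplicit false
set_option linter.unusedSectionVars false

namespace Pool.Agent.W981.Sym

open Pool.Agent.W981.Hyp Pool.Agent.W981.Blk Pool.Agent.W981.Aff Module Matrix MvPolynomial

section main

variable {σ ι K : Type*} [Field K] [DecidableEq σ] [Fintype σ] [Fintype ι]
  {n : Type*} [Fintype n]

/-- the good indices -/
def gd (B : Matrix n n K) (A : σ → Matrix n n K) (q : ι → n → K) (X : Submodule K (n → K))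
    (i : ι) : Prop :=
  dead q X i ∧ up (FF σ K) (q i) ∈ (ext (FF σ K) X).map (gaf B A).mulVecLin

open Classical in
/-- the functionals which define `U₁` -/
noncomputable def psi (B : Matrix n n K) (A : σ → Matrix n n K) (p q : ι → n → K)
    (X : Submodule K (n → K)) : ι ⊕ ι → n → K :=
  Sum.elim (fun i => if gd B A q X i then 0 else p i) q

/-- the subspace `U₁` -/
noncomputable def uu (B : Matrix n n K) (A : σ → Matrix n n K) (p q : ι → n → K)
    (X : Submodule K (n → K)) : Submodule K (n → K) := cut X (psi B A p q X)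

/-- the span of the good `q_i` -/
def eg (B : Matrix n n K) (A : σ → Matrix n n K) (p q : ι → n → K)
    (X : Submodule K (n → K)) : Submodule K (n → K) :=
  Submodule.span K {y | ∃ i, q i = y ∧ gd B A q X i ∧ ¬ dead p X i}

/-- the subspace `H₀` -/
noncomputable def hh (B : Matrix n n K) (A : σ → Matrix n n K) (p q : ι → n → K)
    (X : Submodule K (n → K)) : Submodule K (n → K) :=
  (uu B A p q X).map B.mulVecLin ⊔ eg B A p q X

section basic

variable {B : Matrix n n K} {A : σ → Matrix n n K} {p q : ι → n → K} {X : Submodule K (n → K)}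

theorem uu_le : uu B A p q X ≤ X := cut_le _ _

theorem uu_q {x : n → K} (hx : x ∈ uu B A p q X) (i : ι) : q i ⬝ᵥ x = 0 := hx.2 (Sum.inr i)

theorem uu_p {x : n → K} (hx : x ∈ uu B A p q X) {i : ι} (hi : ¬ gd B A q X i) :
    p i ⬝ᵥ x = 0 := by
  have := hx.2 (Sum.inl i)
  rw [psi, Sum.elim_inl, if_neg hi] at this
  exact this

theorem mem_ext_uu {x : n → FF σ K} (hx : x ∈ ext (FF σ K) X) (hq : ∀ i, zt q x i = 0)
    (hp : ∀ i, ¬ gd B A q X i → zt p x i = 0) : x ∈ ext (FF σ K) (uu B A p q X) := by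
  refine mem_ext_cut hx ?_
  rintro (i | i)
  · rw [psi, Sum.elim_inl]
    split_ifs with h
    · rw [up_zero, zero_dotProduct]
    · exact hp i h
  · exact hq i

theorem ext_eg_le : ext (FF σ K) (eg B A p q X) ≤
    (ext (FF σ K) X).map (gaf B A).mulVecLin := by
  rw [ext_le_iff]
  intro y hy
  rw [eg] at hy
  induction hy using Submodule.span_induction with
  | mem x hx =>
    obtain ⟨i, rfl, hi, -⟩ := hx
    exact hi.2
  | zero => rw [up_zero]; exact Submodule.zero_mem _
  | add x y _ _ hx hy => rw [up_add]; exact Submodule.add_mem _ hx hy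
  | smul c x _ hx => rw [up_smul]; exact Submodule.smul_mem _ _ hx

end basic

namespace DatS

variable {B : Matrix n n K} {A : σ → Matrix n n K} {p q : ι → n → K}
    {a : σ → ι → K} {X : Submodule K (n → K)} {w z : n → FF σ K}

theorem A_mulVec (h : DatS B A p q a X) (k : σ) (x : n → K) :
    A k *ᵥ x = ∑ i, a k i • ((q i ⬝ᵥ x) • p i + (p i ⬝ᵥ x) • q i) := by
  rw [h.hA k, Matrix.sum_mulVec]
  refine Finset.sum_congr rfl fun i _ => ?_
  rw [smul_mulVec, add_mulVec, vecMulVec_mulVec, vecMulVec_mulVec, op_smul_eq_smul,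
    op_smul_eq_smul]

theorem im_uu (h : DatS B A p q a X) : im A (uu B A p q X) ≤ eg B A p q X := by
  rw [im_le]
  intro k x hx
  rw [h.A_mulVec]
  refine Submodule.sum_mem _ fun i _ => Submodule.smul_mem _ _ ?_
  rw [uu_q hx, zero_smul, zero_add]
  by_cases hp : p i ⬝ᵥ x = 0
  · rw [hp, zero_smul]
    exact Submodule.zero_mem _
  · refine Submodule.smul_mem _ _ (Submodule.subset_span ⟨i, rfl, ?_, fun h0 => ?_⟩)
    · by_contra h0
      exact hp (uu_p hx h0)
    · exact hp (h0 x (uu_le hx))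

theorem imB_uu (h : DatS B A p q a X) : imB B A (uu B A p q X) ≤ hh B A p q X :=
  sup_le_sup le_rfl h.im_uu

theorem ext_hh_le (h : DatS B A p q a X) : ext (FF σ K) (hh B A p q X) ≤
    (ext (FF σ K) X).map (gaf B A).mulVecLin := by
  rw [hh, ext_sup]
  refine sup_le ?_ ext_eg_le
  rw [ext_le_iff]
  rintro _ ⟨x, hx, rfl⟩
  rw [mulVecLin_apply, up_B B A]
  exact Submodule.sub_mem _ ⟨_, up_mem (uu_le hx), rfl⟩
    (ext_eg_le (gen_mem h.im_uu (up_mem hx)))

theorem ext_imB_uu (h : DatS B A p q a X) : ext (FF σ K) (imB B A (uu B A p q X)) ≤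
    (ext (FF σ K) X).map (gaf B A).mulVecLin := (ext_mono h.imB_uu).trans h.ext_hh_le

theorem map_uu_le (h : DatS B A p q a X) :
    (ext (FF σ K) (uu B A p q X)).map (gaf B A).mulVecLin ≤ ext (FF σ K) (hh B A p q X) :=
  (map_gaf_le B A _).trans (ext_mono h.imB_uu)

theorem alive_zero (h : DatS B A p q a X) (hz : GZ B A p q X z) {c : σ → FF σ K}
    (h1 : ph p q z c = 0) (h2 : ss p q z c = 0) {i : ι} (hi : ¬ dead q X i) :
    zt p (zb z c) i = 0 ∧ zt q (zb z c) i = 0 := by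
  have hp : zt p z i ≠ 0 := fun h0 => hi (h.hpq i (hz.hp i h0))
  have hq : zt q z i ≠ 0 := fun h0 => hi (hz.hq i h0)
  have e1 : zt q z i * (zt p z i * zt q z i)⁻¹ * zt p (zb z c) i = 0 := congrFun h2 i
  have e2 : zt p z i * zt q (zb z c) i + zt q z i * zt p (zb z c) i = 0 := congrFun h1 i
  have e3 : zt p (zb z c) i = 0 := by
    refine (mul_eq_zero.1 e1).resolve_left ?_
    exact mul_ne_zero hq (inv_ne_zero (mul_ne_zero hp hq))
  rw [e3, mul_zero, add_zero] at e2
  exact ⟨e3, (mul_eq_zero.1 e2).resolve_left hp⟩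

theorem enl_zero (h : DatS B A p q a X) (hz : GZ B A p q X z) {c : σ → FF σ K}
    (h1 : ph p q z c = 0) (h2 : ss p q z c = 0) (h3 : nuR p q X w (zb z c) = 0) :
    enl p q w (zb z c) = 0 := by
  funext i
  rw [enl_apply]
  by_cases hi : dead q X i
  · have e := congrFun h3 (⟨i, hi⟩ : RR q X)
    have e' : zt q w i * zt p (zb z c) i = 0 := e
    rw [zt_dead hi (zb_mem (h.hz hz.h0) c), e', mul_zero, add_zero]
    rfl
  · obtain ⟨e1, e2⟩ := h.alive_zero hz h1 h2 hi
    rw [e1, e2, mul_zero, mul_zero, add_zero]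
    rfl

/-- the space `P₃` -/
noncomputable def P3 (p q : ι → n → K) (X : Submodule K (n → K)) (w z : n → FF σ K) :
    Submodule (FF σ K) (σ → FF σ K) :=
  LinearMap.ker (nuR p q X w ∘ₗ zb z) ⊓ (LinearMap.ker (ss p q z) ⊓ LinearMap.ker (ph p q z))

theorem zb_P3 (h : DatS B A p q a X) (hz : GZ B A p q X z) (hw : GW B A q X w)
    {b : σ → FF σ K} (hb : b ∈ P3 p q X w z) : zb z b ∈ ext (FF σ K) (uu B A p q X) := by
  have hbX := zb_mem (h.hz hz.h0) b
  refine mem_ext_uu hbX (fun i => ?_) (fun i hi => ?_)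
  · by_cases hi : dead q X i
    · exact zt_dead hi hbX
    · exact (h.alive_zero hz hb.2.2 hb.2.1 hi).2
  · by_cases hd : dead q X i
    · have e : zt q w i * zt p (zb z b) i = 0 :=
        congrFun (show nuR p q X w (zb z b) = 0 from hb.1) (⟨i, hd⟩ : RR q X)
      refine (mul_eq_zero.1 e).resolve_left fun h0 => hi ⟨hd, hw.hq i h0⟩
    · exact (h.alive_zero hz hb.2.2 hb.2.1 hd).1

end DatS

end main

section dims

universe u v

variable {σ : Type v} {ι : Type v} {K : Type u} [Field K] [DecidableEq σ] [Fintype σ] [Fintype ι]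
  {n : Type v} [Fintype n]

namespace DatS

variable {B : Matrix n n K} {A : σ → Matrix n n K} {p q : ι → n → K}
    {a : σ → ι → K} {X : Submodule K (n → K)} {w z : n → FF σ K}

theorem dim_nu2 (hcub : S_CUB.{max u v, v, max u v}) (h : DatS B A p q a X)
    (h2 : (2 : FF σ K) ≠ 0) (h3 : (3 : FF σ K) ≠ 0)
    (hz : GZ B A p q X z) (hw : IW B A X w) {c : ℕ}
    (hc : Fintype.card ι ≤ finrank K (WW a) + c) :
    finrank (FF σ K) ((⊤ : Submodule (FF σ K) (σ → FF σ K)).map (nuR p q X w ∘ₗ zb z)) ≤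
      37 * c := by
  classical
  have a1 := h.finrank_ph h2 hz.h0 hc
  have a2 := h.finrank_ss hcub h2 h3 hz hc
  have a3 := h.dim_nu1 h2 hz hw hc
  have a4 := finrank_P1 q X hc
  set T1 : Submodule (FF σ K) (σ → FF σ K) := LinearMap.ker (ph p q z) ⊓ P1 a q X with hT1
  set T2 : Submodule (FF σ K) (σ → FF σ K) := LinearMap.ker (ss p q z) ⊓ T1 with hT2
  set T3 : Submodule (FF σ K) (σ → FF σ K) := LinearMap.ker (nuR p q X w ∘ₗ zb z) ⊓ T2 with hT3
  have b1 := finrank_map_add (ph p q z) (P1 a q X)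
  have b1' := finrank_map_codim (ph p q z) (S₁ := P1 a q X) (S := ⊤) le_top
  have b1'' := LinearMap.finrank_range_add_finrank_ker (ph p q z)
  rw [Submodule.map_top, finrank_top] at b1'
  have b1''' := Submodule.finrank_mono (Submodule.map_mono (f := ph p q z)
    (le_top : P1 a q X ≤ ⊤))
  rw [Submodule.map_top] at b1'''
  rw [← hT1] at b1
  have b2 := finrank_map_add (ss p q z) T1
  rw [← hT2] at b2
  have b2' : finrank (FF σ K) (T1.map (ss p q z)) ≤
      finrank (FF σ K) ((LinearMap.ker (ph p q z)).map (ss p q z)) :=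
    Submodule.finrank_mono (Submodule.map_mono inf_le_left)
  have b3 := finrank_map_add (nuR p q X w ∘ₗ zb z) T2
  rw [← hT3] at b3
  have k2 : T2 ≤ P1 a q X := inf_le_right.trans inf_le_right
  have b3' := Submodule.finrank_mono (Submodule.map_mono (f := nuR p q X w ∘ₗ zb z) k2)
  have k3 : T3 ≤ P1 a q X := inf_le_right.trans k2
  have b4 := finrank_map_codim (rs (FF σ K) q X ∘ₗ kap a) k3
  have d1 : finrank (FF σ K) (T3.map (rs (FF σ K) q X ∘ₗ kap a)) +
      finrank (FF σ K) ((⊤ : Submodule (FF σ K) (σ → FF σ K)).map (nuR p q X w ∘ₗ zb z)) ≤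
      Fintype.card (RR q X) := by
    refine finrank_perp_le _ _ ?_
    rintro _ ⟨c, hc, rfl⟩ _ ⟨b, -, rfl⟩
    change rs (FF σ K) q X (kap a c) ⬝ᵥ nuR p q X w (zb z b) = 0
    rw [← h.dot_P1 (k3 hc) w (zb_mem (h.hz hz.h0) b)]
    have e1 := g2 hw (h.hz hz.h0) hz.h0 b c
    have e2 : w ⬝ᵥ aa A b (zb z c) = 0 := by
      rw [h.dot_aa, h.enl_zero hz hc.2.2.1 hc.2.1 hc.1, dotProduct_zero]
    rw [e2, add_zero] at e1
    exact e1
  omega

theorem dim_P3 (hcub : S_CUB.{max u v, v, max u v}) (h : DatS B A p q a X)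
    (h2 : (2 : FF σ K) ≠ 0) (h3 : (3 : FF σ K) ≠ 0)
    (hz : GZ B A p q X z) (hw : IW B A X w) {c : ℕ}
    (hc : Fintype.card ι ≤ finrank K (WW a) + c) :
    finrank (FF σ K) (σ → FF σ K) ≤ finrank (FF σ K) (P3 p q X w z) + 58 * c := by
  have a1 := h.finrank_ph h2 hz.h0 hc
  have a2 := h.finrank_ss hcub h2 h3 hz hc
  have a3 := h.dim_nu2 hcub h2 h3 hz hw hc
  set T2 : Submodule (FF σ K) (σ → FF σ K) := LinearMap.ker (ss p q z) ⊓
    LinearMap.ker (ph p q z) with hT2
  have b2 := finrank_map_add (ss p q z) (LinearMap.ker (ph p q z))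
  rw [← hT2] at b2
  have b3 := finrank_map_add (nuR p q X w ∘ₗ zb z) T2
  have b3' := Submodule.finrank_mono (Submodule.map_mono (f := nuR p q X w ∘ₗ zb z)
    (le_top : T2 ≤ ⊤))
  rw [P3, ← hT2]
  omega

theorem dim_kap (hcub : S_CUB.{max u v, v, max u v}) (h : DatS B A p q a X)
    (h2 : (2 : FF σ K) ≠ 0) (h3 : (3 : FF σ K) ≠ 0)
    (hz : GZ B A p q X z) (hw : IW B A X w) {c : ℕ}
    (hc : Fintype.card ι ≤ finrank K (WW a) + c) :
    Fintype.card ι ≤ finrank (FF σ K) ((P3 p q X w z).map (kap a)) + 59 * c := by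
  have a1 := h.dim_P3 hcub h2 h3 hz hw hc
  have a2 := finrank_map_codim (kap (σ := σ) a) (S₁ := P3 p q X w z) (S := ⊤) le_top
  rw [Submodule.map_top, finrank_top] at a2
  have a3 := Submodule.finrank_mono (ext_le_range (σ := σ) a)
  rw [finrank_ext] at a3
  omega

theorem sup_range (hcub : S_CUB.{max u v, v, max u v}) (h : DatS B A p q a X)
    (h2 : (2 : FF σ K) ≠ 0) (h3 : (3 : FF σ K) ≠ 0)
    (hz : GZ B A p q X z) (hw : GW B A q X w) {c : ℕ}
    (hc : Fintype.card ι ≤ finrank K (WW a) + c) (T : Submodule (FF σ K) (n → FF σ K))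
    (hT : (ext (FF σ K) (uu B A p q X)).map (gaf B A).mulVecLin ≤ T) :
    finrank (FF σ K) (LinearMap.range (RRz p q z) ⊔ T : Submodule (FF σ K) (n → FF σ K)) ≤
      finrank (FF σ K) T + 59 * c := by
  have a1 := h.dim_kap hcub h2 h3 hz hw.h0 hc
  have a2 := finrank_map_sup (RRz p q z) ⊤ T
  rw [Submodule.map_top, inf_top_eq, finrank_top, finrank_fintype_fun_eq_card] at a2
  have a3 : (P3 p q X w z).map (kap a) ≤ T.comap (RRz p q z) := by
    rintro _ ⟨b, hb, rfl⟩
    rw [Submodule.mem_comap, ← h.aa_eq]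
    have e1 := gaf_zb hz.h0 b
    have e2 : aa A b z = gaf B A *ᵥ (-zb z b) := by
      rw [mulVec_neg, e1, neg_neg]
    rw [e2]
    exact hT ⟨_, Submodule.neg_mem _ (h.zb_P3 hz hw hb), rfl⟩
  have a4 := Submodule.finrank_mono a3
  omega

/-- the hypothesis of the argument with the sets `J` -/
theorem forJ (hcub : S_CUB.{max u v, v, max u v}) (h : DatS B A p q a X)
    (h2 : (2 : FF σ K) ≠ 0) (h3 : (3 : FF σ K) ≠ 0)
    (hz : GZ B A p q X z) (hw : GW B A q X w) {c : ℕ}
    (hc : Fintype.card ι ≤ finrank K (WW a) + c) :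
    finrank (FF σ K) (ext (FF σ K) (hh B A p q X) ⊔ Submodule.span (FF σ K)
      (Set.range fun i => (up (FF σ K) (q i) ⬝ᵥ z) • up (FF σ K) (p i) +
        (up (FF σ K) (p i) ⬝ᵥ z) • up (FF σ K) (q i)) : Submodule (FF σ K) (n → FF σ K)) ≤
      finrank K (hh B A p q X) + 59 * c := by
  rw [← range_RRz, sup_comm]
  have := h.sup_range hcub h2 h3 hz hw hc (ext (FF σ K) (hh B A p q X)) h.map_uu_le
  rwa [finrank_ext] at this

theorem dim_hh (hcub : S_CUB.{max u v, v, max u v}) (h : DatS B A p q a X)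
    (h2 : (2 : FF σ K) ≠ 0) (h3 : (3 : FF σ K) ≠ 0)
    (hz : GZ B A p q X z) (hw : GW B A q X w) {c : ℕ}
    (hc : Fintype.card ι ≤ finrank K (WW a) + c) :
    finrank K (hh B A p q X) ≤
      finrank (FF σ K) ((ext (FF σ K) (uu B A p q X)).map (gaf B A).mulVecLin) + 59 * c := by
  classical
  refine le_trans ?_ (h.sup_range hcub h2 h3 hz hw hc _ le_rfl)
  rw [← finrank_ext (F := FF σ K) (hh B A p q X)]
  refine Submodule.finrank_mono ?_
  have e1 : ext (FF σ K) (eg B A p q X) ≤ LinearMap.range (RRz p q z) := by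
    rw [ext_le_iff]
    intro y hy
    rw [eg] at hy
    induction hy using Submodule.span_induction with
    | mem x hx =>
      obtain ⟨i, rfl, hi, hp⟩ := hx
      have h0 : up (FF σ K) (p i) ⬝ᵥ z ≠ 0 := fun h0 => hp (hz.hp i h0)
      refine ⟨(up (FF σ K) (p i) ⬝ᵥ z)⁻¹ • Pi.single i 1, ?_⟩
      have h4 : up (FF σ K) (q i) ⬝ᵥ z = 0 := zt_dead hi.1 (h.hz hz.h0)
      rw [map_smul, RRz_single, h4, zero_smul, zero_add, smul_smul, inv_mul_cancel₀ h0,
        one_smul]
    | zero => rw [up_zero]; exact Submodule.zero_mem _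
    | add x y _ _ hx hy => rw [up_add]; exact Submodule.add_mem _ hx hy
    | smul c x _ hx => rw [up_smul]; exact Submodule.smul_mem _ _ hx
  rw [hh, ext_sup]
  refine sup_le ?_ (e1.trans le_sup_left)
  rw [ext_le_iff]
  rintro _ ⟨x, hx, rfl⟩
  rw [mulVecLin_apply, up_B B A]
  exact Submodule.sub_mem _ (Submodule.mem_sup_right ⟨_, up_mem hx, rfl⟩)
    (Submodule.mem_sup_left (e1 (gen_mem h.im_uu (up_mem hx))))

end DatS

end dims

end Pool.Agent.W981.Sym
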