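import Pool.Agent.W981.Sym.Dat

/-!
# Affine families of symmetric matrices: the indices with a dead functional
-/

set_option autoImplicit false
set_option linter.unusedSectionVars false

namespace Pool.Agent.W981.Sym

open Pool.Agent.W981.Hyp Pool.Agent.W981.Blk Pool.Agent.W981.Aff Module Matrix MvPolynomial

section main

variable {σ ι K : Type*} [Field K] [DecidableEq σ] [Fintype σ] [Fintype ι]
  {n : Type*} [Fintype n]

/-- the indices with `q_i` dead -/
def RR (q : ι → n → K) (X : Submodule K (n → K)) : Type _ := {i : ι // dead q X i}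

/-- the indices with `q_i` not dead -/
def DD (q : ι → n → K) (X : Submodule K (n → K)) : Type _ := {i : ι // ¬ dead q X i}

noncomputable instance instRR (q : ι → n → K) (X : Submodule K (n → K)) : Fintype (RR q X) :=
  have : Finite (RR q X) := inferInstanceAs (Finite {i : ι // dead q X i})
  Fintype.ofFinite _

noncomputable instance instDD (q : ι → n → K) (X : Submodule K (n → K)) : Fintype (DD q X) :=
  have : Finite (DD q X) := inferInstanceAs (Finite {i : ι // ¬ dead q X i})
  Fintype.ofFinite _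

theorem card_RR_DD (q : ι → n → K) (X : Submodule K (n → K)) :
    Fintype.card (RR q X) + Fintype.card (DD q X) = Fintype.card ι := by
  classical
  let e : RR q X ⊕ DD q X ≃ ι := Equiv.sumCompl (fun i => dead q X i)
  rw [← Fintype.card_congr e, Fintype.card_sum]

/-- the restriction to the dead indices -/
def rs (F : Type*) [Field F] (q : ι → n → K) (X : Submodule K (n → K)) :
    (ι → F) →ₗ[F] (RR q X → F) := LinearMap.funLeft F F (fun i : RR q X => i.1)

/-- the restriction to the other indices -/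
def rd (F : Type*) [Field F] (q : ι → n → K) (X : Submodule K (n → K)) :
    (ι → F) →ₗ[F] (DD q X → F) := LinearMap.funLeft F F (fun i : DD q X => i.1)

theorem rs_apply {F : Type*} [Field F] (q : ι → n → K) (X : Submodule K (n → K)) (f : ι → F)
    (i : RR q X) : rs F q X f i = f i.1 := rfl

theorem rd_apply {F : Type*} [Field F] (q : ι → n → K) (X : Submodule K (n → K)) (f : ι → F)
    (i : DD q X) : rd F q X f i = f i.1 := rfl

theorem sum_RR {F : Type*} [Field F] (q : ι → n → K) (X : Submodule K (n → K)) (f : ι → F)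
    (h : ∀ i, ¬ dead q X i → f i = 0) : ∑ i, f i = ∑ i : RR q X, f i.1 := by
  symm
  refine Finset.sum_of_injOn (fun i : RR q X => i.1) ?_ ?_ ?_ ?_
  · intro i _ j _ hij
    exact Subtype.ext hij
  · intro i _
    exact Finset.mem_coe.2 (Finset.mem_univ _)
  · intro i _ hi
    refine h i fun hd => hi ⟨⟨i, hd⟩, Finset.mem_coe.2 (Finset.mem_univ _), rfl⟩
  · intro i _
    rfl

/-- the parameters which see only the dead indices -/
noncomputable def P1 (a : σ → ι → K) (q : ι → n → K) (X : Submodule K (n → K)) :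
    Submodule (FF σ K) (σ → FF σ K) := LinearMap.ker (rd (FF σ K) q X ∘ₗ kap a)

theorem mem_P1 {a : σ → ι → K} {q : ι → n → K} {X : Submodule K (n → K)} {b : σ → FF σ K}
    (hb : b ∈ P1 a q X) {i : ι} (hi : ¬ dead q X i) : kap a b i = 0 :=
  congrFun (show rd (FF σ K) q X (kap a b) = 0 from hb) ⟨i, hi⟩

theorem finrank_P1 {a : σ → ι → K} (q : ι → n → K) (X : Submodule K (n → K)) {c : ℕ}
    (hc : Fintype.card ι ≤ finrank K (WW a) + c) :
    Fintype.card (RR q X) ≤
      finrank (FF σ K) ((P1 a q X).map (rs (FF σ K) q X ∘ₗ kap a)) + c := by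
  classical
  have e0 := card_RR_DD q X
  have e1 := finrank_map_add (rs (FF σ K) q X) ((P1 a q X).map (kap a))
  have e2 : LinearMap.ker (rs (FF σ K) q X) ⊓ (P1 a q X).map (kap a) = ⊥ := by
    rw [eq_bot_iff]
    rintro _ ⟨hx, b, hb, rfl⟩
    rw [Submodule.mem_bot]
    funext i
    by_cases hi : dead q X i
    · exact congrFun (show rs (FF σ K) q X (kap a b) = 0 from hx) ⟨i, hi⟩
    · exact mem_P1 hb hi
  have e3 := finrank_map_add (rd (FF σ K) q X) (LinearMap.range (kap (σ := σ) a))
  have e4 := Submodule.finrank_le ((LinearMap.range (kap (σ := σ) a)).map (rd (FF σ K) q X))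
  rw [finrank_fintype_fun_eq_card] at e4
  have e5 : LinearMap.ker (rd (FF σ K) q X) ⊓ LinearMap.range (kap (σ := σ) a) ≤
      (P1 a q X).map (kap a) := by
    rintro _ ⟨hx, b, rfl⟩
    exact ⟨b, hx, rfl⟩
  have e6 := Submodule.finrank_mono e5
  have e7 := Submodule.finrank_mono (ext_le_range (σ := σ) a)
  rw [finrank_ext] at e7
  rw [e2, finrank_bot] at e1
  rw [Submodule.map_comp]
  omega

/-- the restricted pairing -/
noncomputable def nuR (p q : ι → n → K) (X : Submodule K (n → K)) (w : n → FF σ K) :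
    (n → FF σ K) →ₗ[FF σ K] (RR q X → FF σ K) where
  toFun x := fun i => zt q w i.1 * zt p x i.1
  map_add' x y := by
    funext i
    simp only [zt, dotProduct_add, mul_add, Pi.add_apply]
  map_smul' c x := by
    funext i
    simp only [zt, dotProduct_smul, smul_eq_mul, Pi.smul_apply, RingHom.id_apply]
    ring

theorem nuR_apply (p q : ι → n → K) (X : Submodule K (n → K)) (w x : n → FF σ K) (i : RR q X) :
    nuR p q X w x i = zt q w i.1 * zt p x i.1 := rfl

/-- the map `φ'` -/
noncomputable def phR (p q : ι → n → K) (X : Submodule K (n → K)) (w z : n → FF σ K) :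
    (σ → FF σ K) →ₗ[FF σ K] (RR q X → FF σ K) where
  toFun c := fun i => zt p z i.1 * zt q (zb w c) i.1 + zt q w i.1 * zt p (zb z c) i.1
  map_add' x y := by
    funext i
    simp only [zt, map_add, dotProduct_add, Pi.add_apply]
    ring
  map_smul' c x := by
    funext i
    simp only [zt, map_smul, dotProduct_smul, smul_eq_mul, Pi.smul_apply, RingHom.id_apply]
    ring

/-- the map `s'` -/
noncomputable def sR (p q : ι → n → K) (X : Submodule K (n → K)) (w z : n → FF σ K) :
    (σ → FF σ K) →ₗ[FF σ K] (RR q X → FF σ K) where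
  toFun c := fun i => zt q w i.1 * (zt q w i.1 * zt p z i.1)⁻¹ * zt p (zb z c) i.1
  map_add' x y := by
    funext i
    simp only [zt, map_add, dotProduct_add, Pi.add_apply]
    ring
  map_smul' c x := by
    funext i
    simp only [zt, map_smul, dotProduct_smul, smul_eq_mul, Pi.smul_apply, RingHom.id_apply]
    ring

theorem sR_apply (p q : ι → n → K) (X : Submodule K (n → K)) (w z : n → FF σ K)
    (c : σ → FF σ K) (i : RR q X) : sR p q X w z c i =
      zt q w i.1 * (zt q w i.1 * zt p z i.1)⁻¹ * zt p (zb z c) i.1 := rfl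

/-- the weights -/
noncomputable def etR (p q : ι → n → K) (X : Submodule K (n → K)) (w z : n → FF σ K) :
    RR q X → FF σ K := fun i => zt q w i.1 * zt p z i.1

namespace DatS

variable {B : Matrix n n K} {A : σ → Matrix n n K} {p q : ι → n → K}
    {a : σ → ι → K} {X : Submodule K (n → K)} {w z : n → FF σ K}

theorem dot_P1 (h : DatS B A p q a X) {b : σ → FF σ K} (hb : b ∈ P1 a q X) (w : n → FF σ K)
    {x : n → FF σ K} (hx : x ∈ ext (FF σ K) X) :
    w ⬝ᵥ aa A b x = rs (FF σ K) q X (kap a b) ⬝ᵥ nuR p q X w x := by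
  rw [h.dot_aa, dotProduct, sum_RR q X _ (fun i hi => by rw [mem_P1 hb hi, zero_mul]),
    dotProduct]
  refine Finset.sum_congr rfl fun i _ => ?_
  rw [rs_apply, nuR_apply, enl_apply, zt_dead i.2 hx, mul_zero, zero_add]

theorem zt_p (h : DatS B A p q a X) (hz : GZ B A p q X z) {i : ι} (hi : zt p z i = 0)
    (b : σ → FF σ K) : zt p (zb z b) i = 0 :=
  zt_dead (hz.hp i hi) (zb_mem (h.hz hz.h0) b)

theorem etR_mul (h : DatS B A p q a X) (hz : GZ B A p q X z) (w : n → FF σ K)
    (b : σ → FF σ K) : etR p q X w z * sR p q X w z b = nuR p q X w (zb z b) := by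
  funext i
  rw [Pi.mul_apply, nuR_apply, sR_apply]
  change zt q w i.1 * zt p z i.1 * _ = _
  by_cases h1 : zt q w i.1 = 0
  · rw [h1]; ring
  by_cases h2 : zt p z i.1 = 0
  · rw [h.zt_p hz h2]; ring
  field_simp

theorem triple (h : DatS B A p q a X) (hz : GZ B A p q X z) {b c : σ → FF σ K}
    (hc : phR p q X w z c = 0) (i : RR q X) : zt q (zb w c) i.1 * zt p (zb z b) i.1 =
      -(etR p q X w z i * (sR p q X w z b i * sR p q X w z c i)) := by
  rw [sR_apply, sR_apply]
  change _ = -(zt q w i.1 * zt p z i.1 * _)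
  by_cases h2 : zt p z i.1 = 0
  · rw [h.zt_p hz h2]; ring
  have hc' : zt p z i.1 * zt q (zb w c) i.1 + zt q w i.1 * zt p (zb z c) i.1 = 0 := congrFun hc i
  by_cases h1 : zt q w i.1 = 0
  · rw [h1, zero_mul, add_zero] at hc'
    rw [(mul_eq_zero.1 hc').resolve_left h2, h1]
    ring
  have h3 : zt q (zb w c) i.1 = -(zt q w i.1 * zt p (zb z c) i.1) / zt p z i.1 := by
    field_simp
    linear_combination hc'
  rw [h3]
  field_simp

theorem q3R (h : DatS B A p q a X) (hz : GZ B A p q X z) {b c d : σ → FF σ K}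
    (hb : b ∈ P1 a q X) (hc : phR p q X w z c = 0) :
    q3 A w z c b d = -(rs (FF σ K) q X (kap a b) ⬝ᵥ
      (etR p q X w z * (sR p q X w z d * sR p q X w z c))) := by
  rw [q3, h.dot_P1 hb _ (zb_mem (h.hz hz.h0) d), dotProduct, dotProduct,
    ← Finset.sum_neg_distrib]
  refine Finset.sum_congr rfl fun i _ => ?_
  rw [nuR_apply, h.triple hz hc, Pi.mul_apply, Pi.mul_apply]
  ring

/-- the space of parameters for the dead indices -/
noncomputable def P1' (p : ι → n → K) (a : σ → ι → K) (q : ι → n → K) (X : Submodule K (n → K))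
    (w z : n → FF σ K) : Submodule (FF σ K) (σ → FF σ K) :=
  LinearMap.ker (phR p q X w z) ⊓ P1 a q X

theorem algR (h : DatS B A p q a X) (h2 : (2 : FF σ K) ≠ 0) (hz : GZ B A p q X z)
    (hw : IW B A X w) :
    Alg (etR p q X w z) ((rs (FF σ K) q X ∘ₗ kap a) ∘ₗ (P1' p a q X w z).subtype)
      (sR p q X w z ∘ₗ (P1' p a q X w z).subtype) where
  hη i hi b := by
    change sR p q X w z b i = 0
    have hi' : zt q w i.1 * zt p z i.1 = 0 := hi
    rw [sR_apply, hi', _root_.inv_zero, mul_zero, zero_mul]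
  h1 b c := by
    change rs (FF σ K) q X (kap a c) ⬝ᵥ (etR p q X w z * sR p q X w z b) +
      rs (FF σ K) q X (kap a b) ⬝ᵥ (etR p q X w z * sR p q X w z c) = 0
    rw [h.etR_mul hz, h.etR_mul hz, ← h.dot_P1 c.2.2 w (zb_mem (h.hz hz.h0) _),
      ← h.dot_P1 b.2.2 w (zb_mem (h.hz hz.h0) _)]
    exact g2 hw (h.hz hz.h0) hz.h0 b c
  h3 x y t := by
    change rs (FF σ K) q X (kap a x) ⬝ᵥ (etR p q X w z * (sR p q X w z y * sR p q X w z t)) +
      rs (FF σ K) q X (kap a y) ⬝ᵥ (etR p q X w z * (sR p q X w z x * sR p q X w z t)) +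
      rs (FF σ K) q X (kap a t) ⬝ᵥ (etR p q X w z * (sR p q X w z x * sR p q X w z y)) = 0
    have e := g3 hw (h.hz hz.h0) hz.h0 x y t
    have hx : phR p q X w z x = 0 := x.2.1
    have hy : phR p q X w z y = 0 := y.2.1
    have ht : phR p q X w z t = 0 := t.2.1
    rw [s3, h.q3R hz y.2.2 ht, h.q3R hz x.2.2 ht, h.q3R hz t.2.2 hy, h.q3R hz x.2.2 hy,
      h.q3R hz t.2.2 hx, h.q3R hz y.2.2 hx,
      mul_comm (sR p q X w z ↑t) (sR p q X w z ↑x), mul_comm (sR p q X w z ↑t) (sR p q X w z ↑y),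
      mul_comm (sR p q X w z ↑y) (sR p q X w z ↑x)] at e
    have e' : 2 * (rs (FF σ K) q X (kap a x) ⬝ᵥ
        (etR p q X w z * (sR p q X w z y * sR p q X w z t)) +
      rs (FF σ K) q X (kap a y) ⬝ᵥ (etR p q X w z * (sR p q X w z x * sR p q X w z t)) +
      rs (FF σ K) q X (kap a t) ⬝ᵥ (etR p q X w z * (sR p q X w z x * sR p q X w z y))) = 0 := by
      linear_combination -e
    exact (mul_eq_zero.1 e').resolve_left h2

theorem finrank_phR (h : DatS B A p q a X) (hz : GZ B A p q X z) (hw : IW B A X w) {c : ℕ}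
    (hc : Fintype.card ι ≤ finrank K (WW a) + c) :
    finrank (FF σ K) ((⊤ : Submodule (FF σ K) (σ → FF σ K)).map (phR p q X w z)) ≤ c := by
  classical
  have h1 := finrank_P1 q X hc
  have h2 : finrank (FF σ K) ((P1 a q X).map (rs (FF σ K) q X ∘ₗ kap a)) +
      finrank (FF σ K) ((⊤ : Submodule (FF σ K) (σ → FF σ K)).map (phR p q X w z)) ≤
      Fintype.card (RR q X) := by
    refine finrank_perp_le _ _ ?_
    rintro _ ⟨b, hb, rfl⟩ _ ⟨c, -, rfl⟩
    have hzX := h.hz hz.h0
    have e1 := g1 hw hzX hz.h0 b c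
    have e2 := g2 hw hzX hz.h0 b c
    rw [e1, h.dot_P1 hb _ hzX, h.dot_P1 hb _ (zb_mem hzX c), ← dotProduct_add] at e2
    rw [← e2]
    change rs (FF σ K) q X (kap a b) ⬝ᵥ _ = _
    congr 1
    funext i
    change zt p z i.1 * zt q (zb w c) i.1 + zt q w i.1 * zt p (zb z c) i.1 =
      zt q (zb w c) i.1 * zt p z i.1 + zt q w i.1 * zt p (zb z c) i.1
    ring
  omega

/-- the rank of the restricted pairing on the first parameters -/
theorem dim_nu1 (h : DatS B A p q a X) (h2 : (2 : FF σ K) ≠ 0) (hz : GZ B A p q X z)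
    (hw : IW B A X w) {c : ℕ} (hc : Fintype.card ι ≤ finrank K (WW a) + c) :
    finrank (FF σ K) ((P1 a q X).map (nuR p q X w ∘ₗ zb z)) ≤ 15 * c := by
  classical
  have a1 := h.finrank_phR hz hw hc
  have a2 := finrank_map_add (phR p q X w z) (P1 a q X)
  have a3 := Submodule.finrank_mono (Submodule.map_mono (f := phR p q X w z)
    (le_top : P1 a q X ≤ ⊤))
  have a4 : finrank (FF σ K) (P1 a q X) ≤ finrank (FF σ K) (P1' p a q X w z) + c := by
    rw [P1']
    omega
  have a5 := finrank_P1 q X hc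
  have a6 := finrank_map_codim (rs (FF σ K) q X ∘ₗ kap a) (S₁ := P1' p a q X w z)
    (S := P1 a q X) inf_le_right
  have e3 : LinearMap.range ((rs (FF σ K) q X ∘ₗ kap a) ∘ₗ (P1' p a q X w z).subtype) =
      (P1' p a q X w z).map (rs (FF σ K) q X ∘ₗ kap a) := by
    rw [LinearMap.range_comp, Submodule.range_subtype]
  obtain ⟨V, W, -, f1, f2, f3⟩ := (h.algR h2 hz hw).main h2 (k := 2 * c) (by
    rw [e3]
    omega)
  set V' := V.map (P1' p a q X w z).subtype with hV'
  set W' := W.map (P1' p a q X w z).subtype with hW'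
  have g1 : finrank (FF σ K) V' = finrank (FF σ K) V := Submodule.finrank_map_subtype_eq _ _
  have g2 : finrank (FF σ K) W' = finrank (FF σ K) W := Submodule.finrank_map_subtype_eq _ _
  have k1 : V' ≤ P1 a q X := by
    rintro _ ⟨b, -, rfl⟩
    exact b.2.2
  have k2 : W' ≤ P1 a q X := by
    rintro _ ⟨b, -, rfl⟩
    exact b.2.2
  have b1 := finrank_map_codim (nuR p q X w ∘ₗ zb z) k1
  have b2 := finrank_map_codim (rs (FF σ K) q X ∘ₗ kap a) k2
  have d1 : finrank (FF σ K) (W'.map (rs (FF σ K) q X ∘ₗ kap a)) +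
      finrank (FF σ K) (V'.map (nuR p q X w ∘ₗ zb z)) ≤ Fintype.card (RR q X) := by
    refine finrank_perp_le _ _ ?_
    rintro _ ⟨_, ⟨d, hd, rfl⟩, rfl⟩ _ ⟨_, ⟨b, hb, rfl⟩, rfl⟩
    have := f3 b hb d hd
    change rs (FF σ K) q X (kap a d) ⬝ᵥ (etR p q X w z * sR p q X w z b) = 0 at this
    rw [h.etR_mul hz] at this
    exact this
  omega

end DatS

end main

end Pool.Agent.W981.Sym
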